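import Pool.Agent.Helper61_Idx.CMain

/-!
# Commuting families in groups with indexed word problem: the bound
-/

set_option autoImplicit false

namespace Pool.Agent.Idx.C

open Pool.Agent.Idx

/-- The main theorem on commuting families. -/
theorem families {G : Type} [Group G] {ι : Type} [Finite ι] (g : ι → G)
    (hI : IsIndexed (WP g)) :
    ∃ C : ℕ, ∀ (M J ℓ : ℕ) (y : Fin M → Fin J → G), C ≤ M →
      (∀ i a, ∃ w : List (ι ⊕ ι), w.length ≤ ℓ ∧
        (w.map (Sum.elim g (fun i => (g i)⁻¹))).prod = y i a) →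
      (∀ i j, i ≠ j → ∀ a b, y i a * y j b = y j b * y i a) →
      (∀ x x' : Fin M → Fin J, (List.ofFn (fun i => y i (x i))).prod =
        (List.ofFn (fun i => y i (x' i))).prod → x = x') →
      J ^ M ≤ (M * ℓ + C) ^ C := by
  classical
  -- if all elements are trivial, then there is at most one choice
  have triv : ∀ (M J : ℕ) (y : Fin M → Fin J → G), 1 ≤ M →
      (∀ x x' : Fin M → Fin J, (List.ofFn (fun i => y i (x i))).prod =
        (List.ofFn (fun i => y i (x' i))).prod → x = x') → (∀ i a, y i a = 1) → J ≤ 1 := by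
    intro M J y hM hinj hy
    by_contra hJ
    push Not at hJ
    have h := hinj (fun _ => ⟨0, by omega⟩) (fun _ => ⟨1, by omega⟩) (by
      congr 2
      funext i
      rw [hy, hy])
    have := congrFun h ⟨0, hM⟩
    simp at this
  have small : ∀ (M J C ℓ : ℕ), 1 ≤ C → J ≤ 1 → J ^ M ≤ (M * ℓ + C) ^ C := by
    intro M J C ℓ hC hJ
    calc J ^ M ≤ 1 ^ M := Nat.pow_le_pow_left hJ M
      _ = 1 := one_pow M
      _ ≤ (M * ℓ + C) ^ C := Nat.one_le_pow _ _ (by omega)
  rcases isEmpty_or_nonempty ι with hι | hι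
  · refine ⟨1, ?_⟩
    intro M J ℓ y hM hw hc hinj
    refine small M J 1 ℓ (le_refl _) (triv M J y hM hinj ?_)
    intro i a
    obtain ⟨w, -, hw⟩ := hw i a
    have : w = [] := by
      cases w with
      | nil => rfl
      | cons t w => rcases t with t | t <;> exact (hι.false t).elim
    rw [← hw, this]
    simp
  · obtain ⟨R, k, cF, B, hR, hB, hmain⟩ := main_square g hI
    obtain ⟨e, he⟩ : ∃ e, e = 12 * k + 2 := ⟨_, rfl⟩
    obtain ⟨K1, hK1⟩ : ∃ K1, K1 = 2 * k * cF * (k + 1) ^ (3 * k) * 3 ^ k := ⟨_, rfl⟩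
    obtain ⟨D, hD⟩ : ∃ D, D = B * B := ⟨_, rfl⟩
    have hD1 : 1 ≤ D := by rw [hD]; exact Nat.mul_pos hB hB
    obtain ⟨C, hC⟩ : ∃ C, C = K1 * 5 ^ e + (e + 1) * (2 * D) + 2 * 5 ^ 4 + 5 * (8 * R) +
      D * (6 * k + 2) + 16 * R + 2 * D + 1 := ⟨_, rfl⟩
    refine ⟨C, ?_⟩
    intro M J ℓ y hM hw hc hinj
    by_cases hJ : J ≤ 1
    · exact small M J C ℓ (by omega) hJ
    push Not at hJ
    have hℓ : 1 ≤ ℓ := by
      by_contra hℓ
      have h0 : ℓ = 0 := by omega
      have := triv M J y (by omega) hinj (by
        intro i a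
        obtain ⟨w, h1, h2⟩ := hw i a
        rw [h0] at h1
        have : w = [] := List.eq_nil_of_length_eq_zero (by omega)
        rw [← h2, this]
        simp)
      omega
    obtain ⟨q, hq⟩ : ∃ q, q = M / D := ⟨_, rfl⟩
    have hq1 : D * q ≤ M := by rw [hq]; exact Nat.mul_div_le M D
    have hq2 : M < D * (q + 1) := by rw [hq]; exact Nat.lt_mul_div_succ M (by omega)
    have hq3 : 6 * k + 1 ≤ q := by
      rw [hq, Nat.le_div_iff_mul_le (by omega)]
      have : (6 * k + 1) * D ≤ D * (6 * k + 2) := by nlinarith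
      omega
    obtain ⟨m, hm⟩ := Nat.exists_eq_add_of_le hq1
    rw [hD] at hm
    subst hm
    have a0 : Fin J := ⟨0, by omega⟩
    have hsplit : ∀ x : Fin (B * B * q) → Fin J,
        (List.ofFn (fun i => y i (Fin.append x (fun _ => a0) i))).prod =
        (List.ofFn (fun i => y (Fin.castAdd m i) (x i))).prod *
          (List.ofFn (fun i => y (Fin.natAdd (B * B * q) i) a0)).prod := by
      intro x
      rw [List.ofFn_add, List.prod_append]
      simp only [Fin.append_right]
      congr 3
      funext i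
      exact congrArg (y (Fin.castAdd m i)) (Fin.append_left x (fun _ => a0) i)
    have key := hmain q J ℓ (fun i => y (Fin.castAdd m i)) (by omega) hJ
      (fun i a => hw _ a)
      (fun i j hij a b => hc _ _ (fun h => hij (Fin.castAdd_injective _ _ h)) a b)
      (by
        intro x x' h
        have h2 := hinj (Fin.append x (fun _ => a0)) (Fin.append x' (fun _ => a0)) (by
          rw [hsplit, hsplit, h])
        funext i
        have h3 := congrFun h2 (Fin.castAdd m i)
        rwa [Fin.append_left, Fin.append_left] at h3)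
    have hX : 1 ≤ (B * B * q + m) * ℓ := Nat.mul_pos (by omega) hℓ
    have hN : 2 * (B * B * q) * (ℓ + 1) + 1 ≤ 5 * ((B * B * q + m) * ℓ) := by
      have h1 : (B * B * q) * (ℓ + 1) ≤ (B * B * q + m) * (2 * ℓ) :=
        Nat.mul_le_mul (by omega) (by omega)
      nlinarith
    rcases key with key | key
    · have h1 := arith2 J (B * B * q) (8 * R) _ (B * B * q + m) 2 (by omega) key
        (by
          rw [← hD]
          rw [← hD] at hM hq2
          have : D * (q + 1) = D * q + D := by ring
          omega) (by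
          rw [← hD]
          rw [← hD] at hM hq2
          have : D * (q + 1) = D * q + D := by ring
          omega)
      refine h1.trans ?_
      rw [← pow_mul, show 4 * R * 2 = 8 * R by ring]
      exact arith1 2 4 (8 * R) _ C _ (by omega) (by omega) hN hX
    · rw [← hK1, ← he] at key
      have h1 := arith2 J q (3 * k) _ (B * B * q + m) (2 * D) (by omega) key (by omega) (by
        rw [← hD]
        rw [← hD] at hq2
        have h2 : q + 1 ≤ 2 * (q - 3 * k) := by omega
        calc D * q + m ≤ D * (q + 1) := hq2.le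
          _ ≤ D * (2 * (q - 3 * k)) := Nat.mul_le_mul_left _ h2
          _ = 2 * D * (q - 3 * k) := by ring)
      refine h1.trans ?_
      exact arith1 K1 e (2 * D) _ C _ (by omega) (by omega) hN hX

end Pool.Agent.Idx.C
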