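import Pool.Agent.Helper61_Idx.CTiny
import Pool.Agent.Helper4_Idx.Frame
import Pool.Agent.Helper4_Idx.Fchi
import Pool.Agent.Helper18_Idx.Bhol
import Pool.Agent.Helper56_Idx.Mix
import Pool.Agent.Helper75_Idx.Bal
import Pool.Agent.Helper85_Idx.Sgl

/-!
# Commuting payloads: the frame argument
-/

set_option autoImplicit false

namespace Pool.Agent.Idx.C

open Pool.Agent.Idx

variable {T G H : Type} [Group G] [Group H] {ev : T → G} {J M l : ℕ}

/-- the type of the data -/
abbrev Dt (Γ : Gram T) (n k : ℕ) (TWs : Set (List T)) : Type :=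
  Fin (n + 1) × Fin (n + 1) × Γ.N × Γ.F ×
    (Fin (3 * k) → Option (Fin (n + 1) × Γ.N × Fin (n + 1))) × (Γ.N → Option TWs)

open Classical in
/-- the mask that belongs to the data -/
noncomputable def msk {Γ : Gram T} {n k : ℕ} {TWs : Set (List T)} (d : Dt Γ n k TWs) (p : ℕ) :
    Bool :=
  decide (d.1.val ≤ p ∧ p < d.1.val + d.2.1.val ∧ ∀ (j : Fin (3 * k)) (h : _),
    d.2.2.2.2.1 j = some h → ¬ (h.1.val ≤ p ∧ p < h.1.val + h.2.2.val))

/-- the measure: uniform on the first half -/
noncomputable def mu (M l : ℕ) (p : ℕ) : ℝ := if p < M * l then 1 / ((M : ℝ) * l) else 0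

theorem card_Dt (Γ : Gram T) (n k : ℕ) (TWs : Set (List T)) (hk : Nat.card Γ.N = k)
    (hfin : TWs.Finite) : Nat.card (Dt Γ n k TWs) =
      (n + 1) * (n + 1) * k * Nat.card Γ.F * (((n + 1) * k * (n + 1) + 1) ^ (3 * k)) *
        ((TWs.ncard + 1) ^ k) := by
  have := Γ.finN
  have := Γ.finF
  have : Finite TWs := hfin
  have hfin' : ∀ m : ℕ, Nat.card (Fin m) = m := fun m => by simp
  have hc : Nat.card TWs = TWs.ncard := rfl
  simp only [Dt, Nat.card_prod, Nat.card_fun, Finite.card_option, hfin', hk, hc]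
  ring

namespace CP

variable (S : CP T G H ev J M l)

/-- `d` is a possible value of the data of `x` -/
def IsDat (Γ : Gram T) (r k b : ℕ) (x : Fin M → Fin J) (d : Dt Γ (2 * M * l) k (S.TW b)) :
    Prop :=
  ∃ (X Z : List T) (σ : List Γ.F) (c : List (Item Γ)),
    S.W x = X ++ flat c ++ Z ∧ X.length = d.1.val ∧ (flat c).length = d.2.1.val ∧
    (∃ m, D Γ m [Sum.inr d.2.2.1] [d.2.2.2.1] (form c)) ∧ Fill σ c ∧
    (∀ w ∈ Lang Γ d.2.2.1 (d.2.2.2.1 :: σ), val ev w = val ev (flat c)) ∧
    (∀ E u, Sum.inr (E, u, false) ∈ c → u ∈ S.TW b) ∧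
    (holes X.length c).length ≤ 3 * k ∧
    (∀ j : Fin (3 * k), (d.2.2.2.2.1 j).map (fun x => (x.1.val, x.2.1, x.2.2.val)) =
      ((holes X.length c)[j.val]?).map (fun x => (x.1, x.2.1, x.2.2.length))) ∧
    (∀ E : Γ.N, (∀ u : S.TW b, d.2.2.2.2.2 E = some u → u.val ∈ Lang Γ E σ) ∧
      (d.2.2.2.2.2 E = none → ∀ u ∈ S.TW b, u ∉ Lang Γ E σ)) ∧
    1 ≤ msum (mu M l) X.length (mask c) * (2 * (r + 3 * k + 1)) ∧
    msum (mu M l) X.length (mask c) ≤ 1 / 2

theorem mask_msk (Γ : Gram T) (k b : ℕ) (d : Dt Γ (2 * M * l) k (S.TW b)) (X Z : List T)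
    (c : List (Item Γ)) (h1 : X.length = d.1.val) (h2 : (flat c).length = d.2.1.val)
    (h3 : (holes X.length c).length ≤ 3 * k)
    (h4 : ∀ j : Fin (3 * k), (d.2.2.2.2.1 j).map (fun x => (x.1.val, x.2.1, x.2.2.val)) =
      ((holes X.length c)[j.val]?).map (fun x => (x.1, x.2.1, x.2.2.length))) (p : ℕ) :
    msk d p = (fmask X Z c).getD p false := by
  classical
  rw [Bool.eq_iff_iff, fmask_spec]
  unfold msk
  rw [decide_eq_true_iff, h1, h2]
  refine and_congr_right (fun _ => and_congr_right (fun _ => ?_))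
  constructor
  · intro h x hx
    rw [← h1] at hx
    obtain ⟨j, hj, hjx⟩ := List.getElem_of_mem hx
    have h5 := h4 ⟨j, by omega⟩
    simp only at h5
    rw [List.getElem?_eq_getElem hj, hjx, Option.map_some] at h5
    obtain ⟨y, hy, hy2⟩ := Option.map_eq_some_iff.mp h5
    have h6 := h ⟨j, by omega⟩ y hy
    have e1 : y.1.val = x.1 := congrArg Prod.fst hy2
    have e2 : y.2.2.val = x.2.2.length := congrArg (fun z => z.2.2) hy2
    rw [← e1, ← e2]
    exact h6
  · intro h j y hy
    have h5 := h4 j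
    rw [hy, Option.map_some] at h5
    obtain ⟨x, hx, hx2⟩ := Option.map_eq_some_iff.mp h5.symm
    have h6 := h x (by rw [← h1]; exact List.mem_of_getElem? hx)
    have e1 : x.1 = y.1.val := congrArg Prod.fst hx2
    have e2 : x.2.2.length = y.2.2.val := congrArg (fun z => z.2.2) hx2
    rw [← e1, ← e2]
    exact h6

theorem mixm_map {f g : ℕ → T} (Mk : List Bool) : ∀ (s : ℕ),
    mixm Mk ((List.range' s Mk.length).map f) ((List.range' s Mk.length).map g) =
      (List.range' s Mk.length).map (fun p => if Mk.getD (p - s) false then g p else f p) := by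
  induction Mk with
  | nil => intro s; simp [mixm]
  | cons a Mk ih =>
    intro s
    rw [List.length_cons, List.range'_succ, List.map_cons, List.map_cons, List.map_cons]
    unfold mixm
    rw [ih (s + 1)]
    congr 1
    · simp
    · apply List.map_congr_left
      intro p hp
      rw [List.mem_range'_1] at hp
      have e : p - s = (p - (s + 1)) + 1 := by omega
      rw [e, List.getD_cons_succ]

/-- the clean mismatched payloads of a mask -/
def CM (χ : ℕ → Bool) (i : Fin M) : Prop :=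
  χ (i.val * l) ≠ χ ((M + (S.σ.symm i).val) * l) ∧
  (∀ p, p / l = i.val → χ p = χ (i.val * l)) ∧
  (∀ p, p / l = M + (S.σ.symm i).val → χ p = χ ((M + (S.σ.symm i).val) * l))

theorem own_symm (i : Fin M) : S.own (M + (S.σ.symm i).val) = i := by
  rw [S.own_add _ (S.σ.symm i).2, Fin.eta, Equiv.apply_symm_apply]

theorem own_val (i : Fin M) : S.own i.val = i := by
  rw [S.own_lt _ i.2]

/-- a segment whose owner is a clean mismatched payload is clean -/
theorem cm_clean (χ : ℕ → Bool) (j : ℕ) (hj : j < 2 * M) (h : S.CM χ (S.own j)) (p : ℕ)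
    (hp : p / l = j) : χ p = χ (j * l) := by
  obtain ⟨-, h2, h3⟩ := h
  by_cases hc : j < M
  · have e : (S.own j).val = j := by rw [S.own_lt j hc]
    rw [e] at h2
    exact h2 p hp
  · obtain ⟨m, rfl⟩ := Nat.exists_eq_add_of_le (not_lt.mp hc)
    have e : (S.σ.symm (S.own (M + m))).val = m := by
      rw [S.own_add m (by omega), Equiv.symm_apply_apply]
    rw [e] at h3
    exact h3 p hp

theorem mixm_fac (χ : ℕ → Bool) (Mk : List Bool) (hMk : Mk.length = 2 * M * l)
    (hχ : ∀ p, χ p = Mk.getD p false) (x x' : Fin M → Fin J)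
    (hoff : ∀ i, ¬ S.CM χ i → x i = x' i) :
    mixm Mk (S.W x) (S.W x') =
      S.fac (fun j => if χ (j * l) then x' (S.own j) else x (S.own j)) 0 (2 * M * l) := by
  have h := mixm_map (f := S.letter (S.asg x)) (g := S.letter (S.asg x')) Mk 0
  rw [hMk] at h
  unfold W fac
  rw [Nat.sub_zero, h]
  apply List.map_congr_left
  intro p hp
  rw [List.mem_range'_1] at hp
  have hp2 : p / l < 2 * M := lt_half (by omega)
  have key : (if χ p then x' (S.own (p / l)) else x (S.own (p / l))) =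
      (if χ (p / l * l) then x' (S.own (p / l)) else x (S.own (p / l))) := by
    by_cases hc : S.CM χ (S.own (p / l))
    · rw [S.cm_clean χ (p / l) hp2 hc p rfl]
    · rw [hoff _ hc]
      simp
  rw [Nat.sub_zero, ← hχ p]
  unfold letter asg
  show _ = (S.segw (p / l) (if χ (p / l * l) then x' (S.own (p / l))
    else x (S.own (p / l)))).getD (p % l) S.t0
  rw [← key]
  split_ifs <;> rfl

/-- the key step: the data and the values off the clean mismatched payloads determine the
payloads -/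
theorem dat_inj (hSgl : SglStmt) (hMix : MixStmt) (hFchi : FchiStmt) (Γ : Gram T) (r k b : ℕ)
    (x x' : Fin M → Fin J) (d : Dt Γ (2 * M * l) k (S.TW b))
    (h1 : S.IsDat Γ r k b x d) (h2 : S.IsDat Γ r k b x' d)
    (hoff : ∀ i, ¬ S.CM (msk d) i → x i = x' i) : x = x' := by
  obtain ⟨X, Z, σ, c, hW, hX, hc, hD, hF, hS, hTw, hh, hhol, hs, -, -⟩ := h1
  obtain ⟨X', Z', σ', c', hW', hX', hc', hD', hF', hS', hTw', hh', hhol', hs', -, -⟩ := h2
  have hZ : Z.length = Z'.length := by
    have e1 := congrArg List.length hW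
    have e2 := congrArg List.length hW'
    rw [S.W_length, List.length_append, List.length_append] at e1 e2
    omega
  have hhm : (holes X.length c).map (fun x => (x.1, x.2.1, x.2.2.length)) =
      (holes X'.length c').map (fun x => (x.1, x.2.1, x.2.2.length)) := by
    apply List.ext_getElem?
    intro j
    rw [List.getElem?_map, List.getElem?_map]
    by_cases hj : j < 3 * k
    · have e1 := hhol ⟨j, hj⟩
      have e2 := hhol' ⟨j, hj⟩
      exact e1.symm.trans e2
    · rw [List.getElem?_eq_none (by omega), List.getElem?_eq_none (by omega)]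
  have hmix := hMix T G _ ev Γ d.2.2.1 d.2.2.2.1 σ X Z X' Z' c c' hD' hF hS
    (by omega) (by omega) hZ hhm (by
      intro E u hu
      have hu1 : u ∈ S.TW b := hTw' E u hu
      have hu2 : u ∈ Lang Γ E σ' := hF' E u false hu
      cases hd : d.2.2.2.2.2 E with
      | none => exact absurd hu2 ((hs' E).2 hd u hu1)
      | some u0 =>
        refine ⟨u0.val, (hs E).1 u0 hd, ?_⟩
        exact hSgl T G _ ev Γ d.2.2.1 d.2.2.2.1 σ' c' hD' hF' hS' E u false hu
          u0.val ((hs' E).1 u0 hd))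
  rw [← hW, ← hW', S.val_W] at hmix
  have hmsk := S.mask_msk Γ k b d X Z c hX hc hh hhol
  have hlen : (fmask X Z c).length = 2 * M * l := by
    rw [(hFchi T Γ X Z c (fun _ => 0) (fun _ => 0) (fun j => (fmask X Z c).getD j false)
      (fun _ => rfl)).1, ← hW, S.W_length]
  rw [S.mixm_fac (msk d) (fmask X Z c) hlen hmsk x x' hoff] at hmix
  funext i
  by_cases hi : S.CM (msk d) i
  · have h3 := S.mixed_one _ hmix i
    simp only [S.own_symm, S.own_val] at h3
    have h4 := hi.1
    cases e1 : msk d (i.val * l) <;> cases e2 : msk d ((M + (S.σ.symm i).val) * l)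
    · rw [e1, e2] at h4; exact absurd rfl h4
    · rw [e1, e2] at h3; simpa using h3
    · rw [e1, e2] at h3; simpa using h3.symm
    · rw [e1, e2] at h4; exact absurd rfl h4
  · exact hoff i hi

end CP

/-! ## The measure -/

theorem mu_nonneg (M l : ℕ) (p : ℕ) : 0 ≤ mu M l p := by
  unfold mu; split_ifs <;> positivity

theorem mu_le (M l : ℕ) (p : ℕ) : mu M l p ≤ 1 / ((M : ℝ) * l) := by
  unfold mu; split_ifs
  · exact le_refl _
  · positivity

theorem mu_sum (M l : ℕ) (hM : 0 < M) (hl : 0 < l) (n : ℕ) (hn : M * l ≤ n) :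
    ∑ j ∈ Finset.range n, mu M l j = 1 := by
  have h1 : ∑ j ∈ Finset.range n, mu M l j = ∑ j ∈ Finset.range (M * l), mu M l j := by
    symm
    apply Finset.sum_subset (Finset.range_mono hn)
    intro j _ hj
    rw [Finset.mem_range] at hj
    unfold mu
    rw [if_neg hj]
  rw [h1, Finset.sum_congr rfl (g := fun _ => 1 / ((M : ℝ) * l)) (by
    intro j hj
    rw [Finset.mem_range] at hj
    unfold mu
    rw [if_pos hj])]
  rw [Finset.sum_const, Finset.card_range, nsmul_eq_mul]
  push_cast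
  have h2 : (0 : ℝ) < M := by exact_mod_cast hM
  have h3 : (0 : ℝ) < l := by exact_mod_cast hl
  field_simp

theorem mu_tiny (M l b R s t : ℕ) (hM : 0 < M) (hl : 0 < l) (hb : 4 * R * (b + 1) ≤ M)
    (ht : ¬ BigC l b s t) : (∑ j ∈ Finset.Ico s t, mu M l j) * (4 * R) ≤ 1 := by
  have h1 := tiny_len hl ht
  have h2 : ∑ j ∈ Finset.Ico s t, mu M l j ≤ ((b : ℝ) + 1) / M := by
    calc ∑ j ∈ Finset.Ico s t, mu M l j ≤ ∑ _j ∈ Finset.Ico s t, 1 / ((M : ℝ) * l) :=
          Finset.sum_le_sum (fun j _ => mu_le M l j)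
      _ = ((t - s : ℕ) : ℝ) * (1 / ((M : ℝ) * l)) := by
          rw [Finset.sum_const, Nat.card_Ico, nsmul_eq_mul]
      _ ≤ (((b + 1) * l : ℕ) : ℝ) * (1 / ((M : ℝ) * l)) := by
          apply mul_le_mul_of_nonneg_right _ (by positivity)
          exact_mod_cast (by omega : t - s ≤ (b + 1) * l)
      _ = ((b : ℝ) + 1) / M := by
          push_cast
          have h3 : (0 : ℝ) < M := by exact_mod_cast hM
          have h4 : (0 : ℝ) < l := by exact_mod_cast hl
          field_simp
  have h3 : (0 : ℝ) < M := by exact_mod_cast hM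
  have h5 : (4 * (R : ℝ) * ((b : ℝ) + 1)) ≤ M := by exact_mod_cast hb
  calc (∑ j ∈ Finset.Ico s t, mu M l j) * (4 * R) ≤ ((b : ℝ) + 1) / M * (4 * R) :=
        mul_le_mul_of_nonneg_right h2 (by positivity)
    _ = (4 * (R : ℝ) * ((b : ℝ) + 1)) / M := by ring
    _ ≤ 1 := by rw [div_le_one h3]; exact h5

theorem mu_point (M l b R j : ℕ) (hM : 0 < M) (hl : 0 < l) (hb : 4 * R * (b + 1) ≤ M) :
    mu M l j * (4 * R) ≤ 1 := by
  have h3 : (0 : ℝ) < M := by exact_mod_cast hM
  have h4 : (1 : ℝ) ≤ l := by exact_mod_cast hl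
  have h5 : (4 * (R : ℝ) * ((b : ℝ) + 1)) ≤ M := by exact_mod_cast hb
  have h6 : (4 * (R : ℝ)) ≤ M := by
    have : (0 : ℝ) ≤ 4 * (R : ℝ) * b := by positivity
    linarith
  have h7 : (M : ℝ) ≤ M * l := by nlinarith
  calc mu M l j * (4 * R) ≤ 1 / ((M : ℝ) * l) * (4 * R) :=
        mul_le_mul_of_nonneg_right (mu_le M l j) (by positivity)
    _ = (4 * R) / ((M : ℝ) * l) := by ring
    _ ≤ 1 := by rw [div_le_one (by positivity)]; linarith

namespace CP

variable (S : CP T G H ev J M l)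

theorem exists_dat (hBal : BalStmt) (Γ : Gram T)
    (hΓ : Lang Γ Γ.S [Γ.bot] = {w | val ev w = 1}) (k r b : ℕ) (hk : Nat.card Γ.N = k)
    (hr1 : ∀ A α, (A, α) ∈ Γ.R1 → α.length ≤ r)
    (hr3 : ∀ A f α, (A, f, α) ∈ Γ.R3 → α.length ≤ r)
    (hb : 4 * (r + 3 * k + 1) * (b + 1) ≤ M)
    (x : Fin M → Fin J) (hg : ¬ S.Four b x) :
    ∃ d, S.IsDat Γ r k b x d := by
  classical
  have hR : ((r + 3 * k + 1 : ℕ) : ℝ) = (r : ℝ) + 3 * k + 1 := by push_cast; ring
  obtain ⟨X, Z, A, f, σ, c, hW, hD, hF, hS, hFl, hh, hm1, hm2⟩ := hBal T G _ ev Γ k r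
    (S.W x) (mu M l) (BigC l b) hk hr1 hr3
    (by rw [hΓ]; exact fun w hw => hw) (by rw [hΓ]; exact S.val_W x) (mu_nonneg M l)
    (by rw [S.W_length]; exact mu_sum M l S.hM S.hl _ (by
          have : 2 * M * l = M * l + M * l := by ring
          omega)) (BigC_mono l b)
    (fun s t _ _ h3 => by
      have := mu_tiny M l b (r + 3 * k + 1) s t S.hM S.hl hb h3
      rw [hR] at this
      exact this)
    (fun j => by
      have := mu_point M l b (r + 3 * k + 1) j S.hM S.hl hb
      rw [hR] at this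
      exact this)
    (fun s₁ t₁ s₂ t₂ s₃ t₃ s₄ t₄ a1 a2 a3 a4 a5 a6 a7 a8 b1 b2 b3 b4 c1 c2 c3 => by
      rw [S.W_length] at a8
      rw [S.sl_W x _ _ (by omega), S.sl_W x _ _ (by omega)] at c1 c2 c3
      exact hg ⟨s₁, t₁, s₂, t₂, s₃, t₃, s₄, t₄, a1, a2, a3, a4, a5, a6, a7, a8, b1, b2, b3, b4,
        c1, c2, c3⟩)
  have hlen : (S.W x).length = 2 * M * l := S.W_length x
  have hlen2 : X.length + (flat c).length + Z.length = 2 * M * l := by
    rw [← hlen, hW, List.length_append, List.length_append]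
  have htiny : ∀ E u, Sum.inr (E, u, false) ∈ c → u ∈ S.TW b := by
    intro E u hu
    obtain ⟨P, Q, h1, h2⟩ := H4.item_loc (BigC l b) c X Z hFl E u false hu
    have h3 : P.length + u.length ≤ 2 * M * l := by
      rw [← hlen, hW, h1, List.length_append, List.length_append]
      omega
    refine ⟨x, P.length, P.length + u.length, by omega, h3, ?_, ?_⟩
    · intro hb
      exact absurd (h2.mpr hb) (by simp)
    · rw [← S.sl_W x _ _ h3, hW, h1, H4.sl_mid]
  refine ⟨(⟨X.length, by omega⟩, ⟨(flat c).length, by omega⟩, A, f,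
    (fun j => ((holes X.length c)[j.val]?).map
      (fun x => (Fin.ofNat (2 * M * l + 1) x.1, x.2.1,
        Fin.ofNat (2 * M * l + 1) x.2.2.length))),
    (fun E => if hE : ∃ u : S.TW b, u.val ∈ Lang Γ E σ then some hE.choose
      else none)), X, Z, σ, c, hW, rfl, rfl, hD, hF, hS, htiny, hh, ?_, ?_, hm1, hm2⟩
  · intro j
    simp only [Option.map_map]
    cases hx : (holes X.length c)[j.val]? with
    | none => rfl
    | some x =>
      have hxm : x ∈ holes X.length c := List.mem_of_getElem? hx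
      have hb := H4.holes_bd c X.length x hxm
      simp only [Option.map_some, Function.comp, Fin.ofNat]
      rw [Nat.mod_eq_of_lt (by omega), Nat.mod_eq_of_lt (by omega)]
  · intro E
    constructor
    · intro u hu
      simp only at hu
      split_ifs at hu with hE
      rw [← Option.some.inj hu]
      exact hE.choose_spec
    · intro hu u hu1 hu2
      simp only at hu
      split_ifs at hu with hE
      exact hE ⟨⟨u, hu1⟩, hu2⟩

/-- the frame theorem for commuting payloads; `q` is a lower bound for the number of clean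
mismatched payloads of a mask with few changes -/
theorem frameC (hBal : BalStmt) (hSgl : SglStmt) (hMix : MixStmt) (hFchi : FchiStmt) (Γ : Gram T)
    (hΓ : Lang Γ Γ.S [Γ.bot] = {w | val ev w = 1}) (k r b q : ℕ) (hk : Nat.card Γ.N = k)
    (hr1 : ∀ A α, (A, α) ∈ Γ.R1 → α.length ≤ r)
    (hr3 : ∀ A f α, (A, f, α) ∈ Γ.R3 → α.length ≤ r)
    (hb : 4 * (r + 3 * k + 1) * (b + 1) ≤ M) (hJ : 0 < J)
    (hb2 : 2 * (2 * M * l + 1) ^ 4 ≤ J ^ b)
    (hgeo : ∀ χ : ℕ → Bool, chg χ (2 * M * l) ≤ 2 * (3 * k + 1) →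
      1 ≤ (∑ j ∈ (Finset.range (2 * M * l)).filter (fun j => χ j = true), mu M l j) *
        (2 * (r + 3 * k + 1)) →
      ∑ j ∈ (Finset.range (2 * M * l)).filter (fun j => χ j = true), mu M l j ≤ 1 / 2 →
      ∃ F : Finset (Fin M), (∀ i ∈ F, S.CM χ i) ∧ q ≤ F.card) :
    J ^ q ≤ 2 * Nat.card (Dt Γ (2 * M * l) k (S.TW b)) := by
  classical
  have := Γ.finN
  have := Γ.finF
  have hTW : Finite (S.TW b) := (S.tiny b).1
  have := Fintype.ofFinite (Dt Γ (2 * M * l) k (S.TW b))
  set good : Finset (Fin M → Fin J) := Finset.univ.filter (fun x => ¬ S.Four b x) with hgood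
  set bad : Finset (Fin M → Fin J) := Finset.univ.filter (fun x => S.Four b x) with hbad
  have h1 : 2 * bad.card ≤ J ^ M := S.uniq b hb2 bad (fun x hx => (Finset.mem_filter.mp hx).2)
  have h2 : bad.card + good.card = J ^ M := by
    rw [hgood, hbad, Finset.card_filter_add_card_filter_not]
    simp
  have h3 : good ⊆ (Finset.univ : Finset (Dt Γ (2 * M * l) k (S.TW b))).biUnion
      (fun d => Finset.univ.filter (fun x => S.IsDat Γ r k b x d)) := by
    intro x hx
    obtain ⟨d, hd⟩ := S.exists_dat hBal Γ hΓ k r b hk hr1 hr3 hb x (Finset.mem_filter.mp hx).2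
    rw [Finset.mem_biUnion]
    exact ⟨d, Finset.mem_univ _, by rw [Finset.mem_filter]; exact ⟨Finset.mem_univ _, hd⟩⟩
  have h4 : ∀ d : Dt Γ (2 * M * l) k (S.TW b),
      (Finset.univ.filter (fun x => S.IsDat Γ r k b x d)).card * J ^ q ≤ J ^ M := by
    intro d
    by_cases hne : ∃ x, S.IsDat Γ r k b x d
    · obtain ⟨x0, hx0⟩ := hne
      obtain ⟨F, hF1, hF2⟩ : ∃ F : Finset (Fin M), (∀ i ∈ F, S.CM (msk d) i) ∧ q ≤ F.card := by
        obtain ⟨X, Z, σ, c, hW, hX, hc, hD, hF, hS, hTw, hh, hhol, hs, hm1, hm2⟩ := hx0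
        have hmsk := S.mask_msk Γ k b d X Z c hX hc hh hhol
        obtain ⟨f1, f2, f3, -⟩ := hFchi T Γ X Z c (mu M l) (fun _ => 0) (msk d) hmsk
        rw [← hW, S.W_length] at f2 f3
        apply hgeo (msk d) (by omega)
        · rw [f3]; exact hm1
        · rw [f3]; exact hm2
      have h5 := card_det (Finset.univ.filter (fun x => S.IsDat Γ r k b x d)) F (by
        intro x hx x' hx' hoff
        rw [Finset.mem_filter] at hx hx'
        exact S.dat_inj hSgl hMix hFchi Γ r k b x x' d hx.2 hx'.2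
          (fun i hi => hoff i (fun hiF => hi (hF1 i hiF))))
      exact le_trans (Nat.mul_le_mul_left _ (Nat.pow_le_pow_right hJ hF2)) h5
    · have : Finset.univ.filter (fun x => S.IsDat Γ r k b x d) = ∅ := by
        rw [Finset.filter_eq_empty_iff]
        intro x _ hx
        exact hne ⟨x, hx⟩
      rw [this]
      simp
  have h5 : good.card * J ^ q ≤ Nat.card (Dt Γ (2 * M * l) k (S.TW b)) * J ^ M := by
    calc good.card * J ^ q ≤ (∑ d : Dt Γ (2 * M * l) k (S.TW b),
          (Finset.univ.filter (fun x => S.IsDat Γ r k b x d)).card) * J ^ q :=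
          Nat.mul_le_mul_right _ ((Finset.card_le_card h3).trans Finset.card_biUnion_le)
      _ ≤ ∑ _d : Dt Γ (2 * M * l) k (S.TW b), J ^ M := by
          rw [Finset.sum_mul]
          exact Finset.sum_le_sum (fun d _ => h4 d)
      _ = Nat.card (Dt Γ (2 * M * l) k (S.TW b)) * J ^ M := by
          rw [Finset.sum_const, Finset.card_univ, Nat.card_eq_fintype_card, smul_eq_mul]
  have h6 : J ^ M ≤ 2 * good.card := by omega
  have h7 : J ^ q * J ^ M ≤ 2 * Nat.card (Dt Γ (2 * M * l) k (S.TW b)) * J ^ M := by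
    calc J ^ q * J ^ M ≤ J ^ q * (2 * good.card) := Nat.mul_le_mul_left _ h6
      _ = 2 * (good.card * J ^ q) := by ring
      _ ≤ 2 * (Nat.card (Dt Γ (2 * M * l) k (S.TW b)) * J ^ M) := Nat.mul_le_mul_left _ h5
      _ = _ := by ring
  exact Nat.le_of_mul_le_mul_right h7 (by positivity)

end CP

end Pool.Agent.Idx.C
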