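import Pool.Agent.Helper61_Idx.CFrame

/-!
# Commuting payloads: the geometry of rows and columns
-/

set_option autoImplicit false

namespace Pool.Agent.Idx.C

open Pool.Agent.Idx

variable {T G H : Type} [Group G] [Group H] {ev : T → G} {J l : ℕ}

/-- the block `s` (of length `u`) is not constant -/
def Un (χ : ℕ → Bool) (u s : ℕ) : Prop := ∃ p, s * u ≤ p ∧ p < (s + 1) * u ∧ χ p ≠ χ (s * u)

theorem un_change (χ : ℕ → Bool) (u s : ℕ) (h : Un χ u s) :
    ∃ j, s * u ≤ j ∧ j + 1 < (s + 1) * u ∧ χ j ≠ χ (j + 1) := by
  by_contra hc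
  push Not at hc
  obtain ⟨p, h1, h2, h3⟩ := h
  apply h3
  obtain ⟨m, rfl⟩ := Nat.exists_eq_add_of_le h1
  clear h1 h3
  induction m with
  | zero => rfl
  | succ m ih =>
    rw [← ih (by omega)]
    exact (hc (s * u + m) (by omega) (by omega)).symm

theorem un_card (χ : ℕ → Bool) (u n : ℕ) [DecidablePred (Un χ u)] :
    ((Finset.range n).filter (Un χ u)).card ≤ chg χ (n * u) := by
  classical
  have h1 : (Finset.range n).filter (Un χ u) ⊆
      ((Finset.range (n * u)).filter (fun j => χ j ≠ χ (j + 1))).image (fun j => j / u) := by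
    intro s hs
    rw [Finset.mem_filter, Finset.mem_range] at hs
    obtain ⟨j, h1, h2, h3⟩ := un_change χ u s hs.2
    rw [Finset.mem_image]
    refine ⟨j, ?_, ?_⟩
    · rw [Finset.mem_filter, Finset.mem_range]
      have : (s + 1) * u ≤ n * u := Nat.mul_le_mul_right u hs.1
      exact ⟨by omega, h3⟩
    · apply Nat.div_eq_of_lt_le
      · exact h1
      · omega
  exact (Finset.card_le_card h1).trans Finset.card_image_le

theorem un_measure (χ : ℕ → Bool) (B q l Dc : ℕ) (hB : 0 < B) (hq : 0 < q) (hl : 0 < l)
    (hD : ∀ (_ : DecidablePred (Un χ (B * q * l))),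
      ((Finset.range (B + B)).filter (Un χ (B * q * l))).card ≤ Dc) (w : Bool)
    (hw : ∀ s, s < B → ¬ Un χ (B * q * l) s → χ (s * (B * q * l)) ≠ w) :
    ∑ j ∈ (Finset.range (2 * (B * B * q) * l)).filter (fun j => χ j = w),
      mu (B * B * q) l j ≤ (Dc : ℝ) / B := by
  classical
  set u := B * q * l with hu
  have hupos : 0 < u := by positivity
  have hMl : B * B * q * l = B * u := by rw [hu]; ring
  set U : Finset ℕ := ((Finset.range B).filter (Un χ u)).biUnion
    (fun s => Finset.Ico (s * u) ((s + 1) * u)) with hU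
  have hUc : U.card ≤ Dc * u := by
    calc U.card ≤ ∑ s ∈ (Finset.range B).filter (Un χ u),
          (Finset.Ico (s * u) ((s + 1) * u)).card := Finset.card_biUnion_le
      _ = ∑ _s ∈ (Finset.range B).filter (Un χ u), u := by
          apply Finset.sum_congr rfl
          intro s _
          rw [Nat.card_Ico]
          have : (s + 1) * u = s * u + u := by ring
          omega
      _ = ((Finset.range B).filter (Un χ u)).card * u := by
          rw [Finset.sum_const, smul_eq_mul]
      _ ≤ Dc * u := by
          apply Nat.mul_le_mul_right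
          exact le_trans (Finset.card_le_card (Finset.filter_subset_filter _
            (Finset.range_mono (by omega)))) (hD (Classical.decPred _))
  have h1 : ∑ j ∈ (Finset.range (2 * (B * B * q) * l)).filter (fun j => χ j = w),
      mu (B * B * q) l j ≤ ∑ j ∈ U, 1 / (((B * B * q : ℕ) : ℝ) * l) := by
    calc ∑ j ∈ (Finset.range (2 * (B * B * q) * l)).filter (fun j => χ j = w),
          mu (B * B * q) l j = ∑ j ∈ ((Finset.range (2 * (B * B * q) * l)).filter
            (fun j => χ j = w)).filter (fun j => j < B * u), mu (B * B * q) l j := by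
          refine (Finset.sum_filter_of_ne ?_).symm
          intro j _ hj
          by_contra hc
          apply hj
          unfold mu
          rw [if_neg (by rw [hMl]; exact hc)]
      _ ≤ ∑ j ∈ ((Finset.range (2 * (B * B * q) * l)).filter
            (fun j => χ j = w)).filter (fun j => j < B * u),
            1 / (((B * B * q : ℕ) : ℝ) * l) := Finset.sum_le_sum (fun j _ => mu_le _ _ _)
      _ ≤ ∑ j ∈ U, 1 / (((B * B * q : ℕ) : ℝ) * l) := by
          apply Finset.sum_le_sum_of_subset_of_nonneg
          · intro j hj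
            rw [Finset.mem_filter, Finset.mem_filter] at hj
            obtain ⟨⟨_, h2⟩, h3⟩ := hj
            have h4 : j / u * u ≤ j := Nat.div_mul_le_self j u
            have h5 : j < (j / u + 1) * u := by
              rw [Nat.mul_comm]; exact Nat.lt_mul_div_succ j hupos
            have h6 : j / u < B := by
              apply Nat.div_lt_of_lt_mul
              rw [Nat.mul_comm]
              exact h3
            rw [hU, Finset.mem_biUnion]
            refine ⟨j / u, ?_, by rw [Finset.mem_Ico]; exact ⟨h4, h5⟩⟩
            rw [Finset.mem_filter, Finset.mem_range]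
            refine ⟨h6, ?_⟩
            by_contra hun
            have h7 := hw (j / u) h6 hun
            apply h7
            by_contra h8
            apply hun
            exact ⟨j, h4, h5, fun h9 => h8 (h9 ▸ h2)⟩
          · intro j _ _
            positivity
  refine h1.trans ?_
  rw [Finset.sum_const, nsmul_eq_mul]
  have hB' : (0 : ℝ) < B := by exact_mod_cast hB
  have hq' : (0 : ℝ) < q := by exact_mod_cast hq
  have hl' : (0 : ℝ) < l := by exact_mod_cast hl
  have h2 : (U.card : ℝ) ≤ Dc * (B * q * l) := by exact_mod_cast hUc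
  calc (U.card : ℝ) * (1 / (((B * B * q : ℕ) : ℝ) * l)) ≤
        (Dc * (B * q * l)) * (1 / (((B * B * q : ℕ) : ℝ) * l)) :=
        mul_le_mul_of_nonneg_right h2 (by positivity)
    _ = (Dc : ℝ) / B := by
        push_cast
        field_simp

/-- the exchange of the two leading digits -/
def dswap (B q : ℕ) : Equiv.Perm (Fin (B * B * q)) :=
  finProdFinEquiv.symm.trans ((Equiv.prodCongr (finProdFinEquiv.symm.trans
    ((Equiv.prodComm _ _).trans finProdFinEquiv)) (Equiv.refl _)).trans finProdFinEquiv)

/-- the index with digits `r, c, t` -/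
def idx {B q : ℕ} (r c : Fin B) (t : Fin q) : Fin (B * B * q) :=
  finProdFinEquiv (finProdFinEquiv (r, c), t)

theorem idx_val {B q : ℕ} (r c : Fin B) (t : Fin q) :
    (idx r c t).val = t.val + q * (c.val + B * r.val) := by
  simp [idx, finProdFinEquiv]

theorem dswap_idx {B q : ℕ} (r c : Fin B) (t : Fin q) :
    dswap B q (idx r c t) = idx c r t := by
  simp [dswap, idx]

theorem dswap_symm_idx {B q : ℕ} (r c : Fin B) (t : Fin q) :
    (dswap B q).symm (idx r c t) = idx c r t := by
  rw [Equiv.symm_apply_eq, dswap_idx]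

theorem idx_inj {B q : ℕ} (r c : Fin B) : Function.Injective (idx r c : Fin q → Fin (B * B * q)) := by
  intro t t' h
  unfold idx at h
  have := finProdFinEquiv.injective h
  exact (Prod.ext_iff.mp this).2

/-- a segment in a constant block -/
theorem seg_block (χ : ℕ → Bool) (B q l s a p : ℕ) (hc : ¬ Un χ (B * q * l) s)
    (h1 : s * (B * q) ≤ a) (h2 : a < (s + 1) * (B * q)) (hl : 0 < l) (hp : p / l = a) :
    χ p = χ (s * (B * q * l)) := by
  by_contra h
  apply hc
  refine ⟨p, ?_, ?_, h⟩
  · calc s * (B * q * l) = s * (B * q) * l := by ring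
      _ ≤ a * l := Nat.mul_le_mul_right l h1
      _ ≤ p := by rw [← hp]; exact Nat.div_mul_le_self p l
  · calc p < (a + 1) * l := by
          rw [← hp, Nat.mul_comm]; exact Nat.lt_mul_div_succ p hl
      _ ≤ (s + 1) * (B * q) * l := Nat.mul_le_mul_right l h2
      _ = (s + 1) * (B * q * l) := by ring

theorem geo {B q : ℕ} (S : CP T G H ev J (B * B * q) l) (hσ : S.σ = dswap B q) (R Dc : ℕ)
    (hR : 1 ≤ R) (hB : 2 * R * Dc < B) (hq : 0 < q) (χ : ℕ → Bool)
    (h1 : chg χ (2 * (B * B * q) * l) ≤ Dc)
    (h2 : 1 ≤ (∑ j ∈ (Finset.range (2 * (B * B * q) * l)).filter (fun j => χ j = true),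
      mu (B * B * q) l j) * (2 * R))
    (h3 : ∑ j ∈ (Finset.range (2 * (B * B * q) * l)).filter (fun j => χ j = true),
      mu (B * B * q) l j ≤ 1 / 2) :
    ∃ F : Finset (Fin (B * B * q)), (∀ i ∈ F, S.CM χ i) ∧ q ≤ F.card := by
  classical
  have hl := S.hl
  have hB0 : 0 < B := by omega
  set u := B * q * l with hu
  have hupos : 0 < u := by positivity
  have hD : ∀ (_ : DecidablePred (Un χ (B * q * l))),
      ((Finset.range (B + B)).filter (Un χ (B * q * l))).card ≤ Dc := by
    intro _
    refine le_trans (un_card χ (B * q * l) (B + B)) ?_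
    rw [show (B + B) * (B * q * l) = 2 * (B * B * q) * l by ring]
    exact h1
  have hDB : Dc < B := by
    have : Dc ≤ 2 * R * Dc := by nlinarith
    omega
  -- real inequalities
  have hB' : (0 : ℝ) < B := by exact_mod_cast hB0
  have hBr : 2 * (R : ℝ) * Dc < B := by exact_mod_cast hB
  have hRr : (1 : ℝ) ≤ R := by exact_mod_cast hR
  have hDc : (0 : ℝ) ≤ Dc := by positivity
  -- a constant column
  obtain ⟨c0, hc0, hc0'⟩ : ∃ c, c < B ∧ ¬ Un χ u (B + c) := by
    by_contra hcon
    push Not at hcon
    have h4 : (Finset.range B).image (fun c => B + c) ⊆ (Finset.range (B + B)).filter (Un χ u) := by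
      intro s hs
      rw [Finset.mem_image] at hs
      obtain ⟨c, hc, rfl⟩ := hs
      rw [Finset.mem_range] at hc
      rw [Finset.mem_filter, Finset.mem_range]
      exact ⟨by omega, hcon c hc⟩
    have h5 := Finset.card_le_card h4
    rw [Finset.card_image_of_injective _ (fun a b h => by simpa using h),
      Finset.card_range] at h5
    have h6 : ((Finset.range (B + B)).filter (Un χ u)).card ≤ Dc := hD (Classical.decPred _)
    omega
  obtain ⟨r, c, hr, hc, hr', hc', hne⟩ : ∃ r c, r < B ∧ c < B ∧ ¬ Un χ u r ∧ ¬ Un χ u (B + c) ∧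
      χ (r * u) ≠ χ ((B + c) * u) := by
    by_contra hcon
    push Not at hcon
    have hall : ∀ s, s < B → ¬ Un χ u s → χ (s * u) = χ ((B + c0) * u) :=
      fun s hs hs' => hcon s c0 hs hc0 hs' hc0'
    cases hv : χ ((B + c0) * u) with
    | false =>
      have h4 := un_measure χ B q l Dc hB0 hq hl hD true (by
        intro s hs hs'
        rw [hall s hs hs', hv]
        simp)
      have h5 : (Dc : ℝ) / B * (2 * R) < 1 := by
        rw [div_mul_eq_mul_div, div_lt_one hB']
        linarith
      have h6 : (∑ j ∈ (Finset.range (2 * (B * B * q) * l)).filter (fun j => χ j = true),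
        mu (B * B * q) l j) * (2 * R) ≤ (Dc : ℝ) / B * (2 * R) :=
        mul_le_mul_of_nonneg_right h4 (by positivity)
      linarith
    | true =>
      have h4 := un_measure χ B q l Dc hB0 hq hl hD false (by
        intro s hs hs'
        rw [hall s hs hs', hv]
        simp)
      have h5 : (Dc : ℝ) / B < 1 / 2 := by
        rw [div_lt_div_iff₀ hB' (by norm_num)]
        nlinarith
      have h6 := mu_sum (B * B * q) l (by positivity) hl (2 * (B * B * q) * l) (by
        have : 2 * (B * B * q) * l = B * B * q * l + B * B * q * l := by ring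
        omega)
      have h7 : ∑ j ∈ Finset.range (2 * (B * B * q) * l), mu (B * B * q) l j =
          ∑ j ∈ (Finset.range (2 * (B * B * q) * l)).filter (fun j => χ j = true),
            mu (B * B * q) l j +
          ∑ j ∈ (Finset.range (2 * (B * B * q) * l)).filter (fun j => χ j = false),
            mu (B * B * q) l j := by
        rw [← Finset.sum_filter_add_sum_filter_not _ (fun j => χ j = true)]
        congr 2
        ext j
        simp
      linarith
  refine ⟨Finset.univ.image (fun t : Fin q => idx ⟨r, hr⟩ ⟨c, hc⟩ t), ?_, ?_⟩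
  · intro i hi
    rw [Finset.mem_image] at hi
    obtain ⟨t, -, rfl⟩ := hi
    have ht := t.2
    have e1 : (idx (⟨r, hr⟩ : Fin B) ⟨c, hc⟩ t).val = t.val + q * (c + B * r) := idx_val _ _ _
    have e2 : (S.σ.symm (idx (⟨r, hr⟩ : Fin B) ⟨c, hc⟩ t)).val = t.val + q * (r + B * c) := by
      rw [hσ, dswap_symm_idx, idx_val]
    have f1 : r * (B * q) ≤ t.val + q * (c + B * r) := by nlinarith
    have f2 : t.val + q * (c + B * r) < (r + 1) * (B * q) := by nlinarith
    have f3 : (B + c) * (B * q) ≤ B * B * q + (t.val + q * (r + B * c)) := by nlinarith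
    have f4 : B * B * q + (t.val + q * (r + B * c)) < (B + c + 1) * (B * q) := by nlinarith
    have g1 : ∀ p, p / l = t.val + q * (c + B * r) → χ p = χ (r * u) :=
      fun p hp => seg_block χ B q l r _ p hr' f1 f2 hl hp
    have g2 : ∀ p, p / l = B * B * q + (t.val + q * (r + B * c)) → χ p = χ ((B + c) * u) :=
      fun p hp => seg_block χ B q l (B + c) _ p hc' f3 f4 hl hp
    unfold CP.CM
    rw [e1, e2]
    have k1 := g1 ((t.val + q * (c + B * r)) * l) (Nat.mul_div_cancel _ hl)
    have k2 := g2 ((B * B * q + (t.val + q * (r + B * c))) * l) (Nat.mul_div_cancel _ hl)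
    refine ⟨?_, ?_, ?_⟩
    · rw [k1, k2]
      exact hne
    · intro p hp
      rw [k1, g1 p hp]
    · intro p hp
      rw [k2, g2 p hp]
  · rw [Finset.card_image_of_injective _ (idx_inj _ _), Finset.card_univ, Fintype.card_fin]

end Pool.Agent.Idx.C
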