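import Pool.Agent.Helper61_Idx.CGeo
import Pool.Agent.Helper18_Idx.Clos
import Pool.Agent.Helper48_Idx.Norm
import Pool.Agent.Helper85_Idx.Fin

/-!
# Commuting families in groups with indexed word problem
-/

set_option autoImplicit false

namespace Pool.Agent.Idx.C

open Pool.Agent.Idx

/-! ## Arithmetic -/

theorem arith1 (K e f X C N : ℕ) (h1 : K * 5 ^ e ≤ C) (h2 : (e + 1) * f ≤ C) (h3 : N ≤ 5 * X)
    (h4 : 1 ≤ X) : (K * N ^ e) ^ f ≤ (X + C) ^ C := by
  have h5 : K * N ^ e ≤ (X + C) ^ (e + 1) := by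
    calc K * N ^ e ≤ K * (5 * X) ^ e := Nat.mul_le_mul_left _ (Nat.pow_le_pow_left h3 e)
      _ = (K * 5 ^ e) * X ^ e := by rw [mul_pow]; ring
      _ ≤ C * X ^ e := Nat.mul_le_mul_right _ h1
      _ ≤ (X + C) * (X + C) ^ e := Nat.mul_le_mul (by omega) (Nat.pow_le_pow_left (by omega) e)
      _ = (X + C) ^ (e + 1) := by ring
  calc (K * N ^ e) ^ f ≤ ((X + C) ^ (e + 1)) ^ f := Nat.pow_le_pow_left h5 f
    _ = (X + C) ^ ((e + 1) * f) := by rw [← pow_mul]
    _ ≤ (X + C) ^ C := Nat.pow_le_pow_right (by omega) h2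

/-- if `J ^ q ≤ K * J ^ a`, then `J ^ m ≤ K ^ f` for `m ≤ f * (q - a)` -/
theorem arith2 (J q a K m f : ℕ) (hJ : 1 ≤ J) (h : J ^ q ≤ K * J ^ a) (ha : a ≤ q)
    (hm : m ≤ f * (q - a)) : J ^ m ≤ K ^ f := by
  have h1 : J ^ (q - a) * J ^ a ≤ K * J ^ a := by
    rw [← pow_add]
    have : q - a + a = q := by omega
    rw [this]
    exact h
  have h2 : J ^ (q - a) ≤ K := Nat.le_of_mul_le_mul_right h1 (Nat.pow_pos hJ)
  calc J ^ m ≤ J ^ (f * (q - a)) := Nat.pow_le_pow_right hJ hm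
    _ = (J ^ (q - a)) ^ f := by rw [← pow_mul, Nat.mul_comm]
    _ ≤ K ^ f := Nat.pow_le_pow_left h2 f

/-- the bound on the number of data -/
theorem arith3 (J b k cF tw n : ℕ) (hJ : 1 ≤ J) (hb : J ^ (b + 2) ≤ J ^ 3 * (2 * (n + 1) ^ 4))
    (htw : tw ≤ (n + 1) ^ 2 * J ^ (b + 2)) :
    2 * ((n + 1) * (n + 1) * k * cF * (((n + 1) * k * (n + 1) + 1) ^ (3 * k)) *
      ((tw + 1) ^ k)) ≤
    (2 * k * cF * (k + 1) ^ (3 * k) * 3 ^ k) * (n + 1) ^ (12 * k + 2) * J ^ (3 * k) := by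
  have hN : 1 ≤ n + 1 := by omega
  set N := n + 1
  have h1 : tw + 1 ≤ 3 * (J ^ 3 * N ^ 6) := by
    have h2 : tw ≤ 2 * (J ^ 3 * N ^ 6) := by
      calc tw ≤ N ^ 2 * J ^ (b + 2) := htw
        _ ≤ N ^ 2 * (J ^ 3 * (2 * N ^ 4)) := Nat.mul_le_mul_left _ hb
        _ = 2 * (J ^ 3 * N ^ 6) := by ring
    have h3 : 1 ≤ J ^ 3 * N ^ 6 := Nat.mul_pos (Nat.pow_pos hJ) (Nat.pow_pos hN)
    omega
  have h4 : (tw + 1) ^ k ≤ 3 ^ k * (J ^ (3 * k) * N ^ (6 * k)) := by
    calc (tw + 1) ^ k ≤ (3 * (J ^ 3 * N ^ 6)) ^ k := Nat.pow_le_pow_left h1 k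
      _ = 3 ^ k * (J ^ (3 * k) * N ^ (6 * k)) := by
        rw [mul_pow, mul_pow, ← pow_mul, ← pow_mul]
  have h5 : (N * k * N + 1) ^ (3 * k) ≤ (k + 1) ^ (3 * k) * N ^ (6 * k) := by
    have h6 : N * k * N + 1 ≤ (k + 1) * N ^ 2 := by
      have : 1 ≤ N ^ 2 := Nat.pow_pos hN
      nlinarith
    calc (N * k * N + 1) ^ (3 * k) ≤ ((k + 1) * N ^ 2) ^ (3 * k) := Nat.pow_le_pow_left h6 _
      _ = (k + 1) ^ (3 * k) * N ^ (6 * k) := by
        rw [mul_pow, ← pow_mul]
        congr 2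
        ring
  calc 2 * (N * N * k * cF * ((N * k * N + 1) ^ (3 * k)) * ((tw + 1) ^ k))
      ≤ 2 * (N * N * k * cF * ((k + 1) ^ (3 * k) * N ^ (6 * k)) *
        (3 ^ k * (J ^ (3 * k) * N ^ (6 * k)))) := by
        apply Nat.mul_le_mul_left
        exact Nat.mul_le_mul (Nat.mul_le_mul_left _ h5) h4
    _ = (2 * k * cF * (k + 1) ^ (3 * k) * 3 ^ k) * N ^ (12 * k + 2) * J ^ (3 * k) := by
        rw [show 12 * k + 2 = 6 * k + 6 * k + 2 by ring, pow_add, pow_add]
        ring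

/-! ## Products of commuting families -/

theorem pi_list {H : Type} [Group H] {M : ℕ} (f : Fin M → H) :
    (List.ofFn (fun i => (Pi.mulSingle i (f i) : Fin M → H))).prod = f := by
  funext j
  have h1 : (List.ofFn (fun i => (Pi.mulSingle i (f i) : Fin M → H))).prod j =
      (List.ofFn (fun i => (Pi.mulSingle i (f i) : Fin M → H) j)).prod := by
    have := map_list_prod (Pi.evalMonoidHom (fun _ : Fin M => H) j)
      (List.ofFn (fun i => (Pi.mulSingle i (f i) : Fin M → H)))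
    rw [List.map_ofFn] at this
    exact this
  rw [h1, List.ofFn_eq_map, List.prod_map_eq_pow_single j]
  · rw [List.count_eq_one_of_mem (List.nodup_finRange M) (List.mem_finRange j), pow_one,
      Pi.mulSingle_eq_same]
  · intro i hi _
    exact Pi.mulSingle_eq_of_ne (Ne.symm hi) _

section Coprod

variable {G : Type} [Group G] {M J : ℕ} (y : Fin M → Fin J → G)
  (hc : ∀ i j, i ≠ j → ∀ a b, y i a * y j b = y j b * y i a)

theorem lift_comm (hc : ∀ i j, i ≠ j → ∀ a b, y i a * y j b = y j b * y i a) :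
    Pairwise (fun i j => ∀ (u v : FreeGroup (Fin J)),
      Commute (FreeGroup.lift (y i) u) (FreeGroup.lift (y j) v)) := by
  intro i j hij u v
  have h1 : ∀ (a : Fin J) (v : FreeGroup (Fin J)), Commute (y i a) (FreeGroup.lift (y j) v) := by
    intro a v
    induction v using FreeGroup.induction_on with
    | C1 => rw [map_one]; exact Commute.one_right _
    | of b => rw [FreeGroup.lift_apply_of]; exact hc i j hij a b
    | inv_of b _ =>
      rw [map_inv, FreeGroup.lift_apply_of]; exact Commute.inv_right (hc i j hij a b)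
    | mul x y hx hy => rw [map_mul]; exact Commute.mul_right hx hy
  induction u using FreeGroup.induction_on with
  | C1 => rw [map_one]; exact Commute.one_left _
  | of a => rw [FreeGroup.lift_apply_of]; exact h1 a v
  | inv_of a _ => rw [map_inv, FreeGroup.lift_apply_of]; exact Commute.inv_left (h1 a v)
  | mul x y hx hy => rw [map_mul]; exact Commute.mul_left hx hy

/-- the homomorphism on the power of the free group -/
def kap : (Fin M → FreeGroup (Fin J)) →* G :=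
  MonoidHom.noncommPiCoprod (fun i => FreeGroup.lift (y i)) (lift_comm y hc)

theorem kap_single (i : Fin M) (u : FreeGroup (Fin J)) :
    kap y hc (Pi.mulSingle i u) = FreeGroup.lift (y i) u := by
  unfold kap
  exact MonoidHom.noncommPiCoprod_mulSingle _ _ _

theorem kap_box (x : Fin M → Fin J) :
    kap y hc (fun i => FreeGroup.of (x i)) = (List.ofFn (fun i => y i (x i))).prod := by
  conv_lhs => rw [← pi_list (fun i => FreeGroup.of (x i))]
  rw [map_list_prod, List.map_ofFn]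
  congr 2
  funext i
  simp only [Function.comp]
  rw [kap_single, FreeGroup.lift_apply_of]

end Coprod

/-! ## The letters -/

section Letters

variable {G : Type} [Group G] {ι : Type} (g : ι → G)

/-- evaluation of the letters: the generators, their inverses, and a letter with value one -/
def evT (t : (ι ⊕ ι) ⊕ Unit) : G := Sum.elim (Sum.elim g (fun i => (g i)⁻¹)) (fun _ => 1) t

theorem val_inl (w : List (ι ⊕ ι)) : val (evT g) (w.map Sum.inl) =
    (w.map (Sum.elim g (fun i => (g i)⁻¹))).prod := by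
  unfold val
  rw [List.map_map]
  rfl

theorem val_dummy (n : ℕ) : val (evT g) (List.replicate n (Sum.inr ())) = 1 := by
  unfold val
  rw [List.map_replicate, List.prod_replicate]
  exact one_pow n

/-- the inverse word -/
def invw (w : List (ι ⊕ ι)) : List (ι ⊕ ι) := (w.map Sum.swap).reverse

theorem invw_prod (w : List (ι ⊕ ι)) : ((invw w).map (Sum.elim g (fun i => (g i)⁻¹))).prod =
    ((w.map (Sum.elim g (fun i => (g i)⁻¹))).prod)⁻¹ := by
  unfold invw
  induction w with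
  | nil => simp
  | cons t w ih =>
    rw [List.map_cons, List.reverse_cons, List.map_append, List.prod_append, ih,
      List.map_cons (l := w), List.prod_cons, mul_inv_rev]
    rcases t with i | i <;> simp

/-- padding -/
def pad (n : ℕ) (w : List (ι ⊕ ι)) : List ((ι ⊕ ι) ⊕ Unit) :=
  w.map Sum.inl ++ List.replicate (n - w.length) (Sum.inr ())

theorem pad_length (n : ℕ) (w : List (ι ⊕ ι)) (h : w.length ≤ n) : (pad n w).length = n := by
  unfold pad
  rw [List.length_append, List.length_map, List.length_replicate]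
  omega

theorem pad_val (n : ℕ) (w : List (ι ⊕ ι)) : val (evT g) (pad n w) =
    (w.map (Sum.elim g (fun i => (g i)⁻¹))).prod := by
  unfold pad
  rw [CP.val_append', val_inl, val_dummy, mul_one]

theorem exists_gram' [Finite ι] [Nonempty ι] (hI : IsIndexed (WP g)) :
    ∃ Γ : Gram ((ι ⊕ ι) ⊕ Unit), Lang Γ Γ.S [Γ.bot] = {w | val (evT g) w = 1} := by
  obtain ⟨Γ, hΓ⟩ := H48.norm _ _ hI
  obtain ⟨i0⟩ := (inferInstance : Nonempty ι)
  obtain ⟨Γ', hΓ'⟩ := H18.clos (ι ⊕ ι) ((ι ⊕ ι) ⊕ Unit) inferInstance Γ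
    (fun t => Sum.elim (fun x => [x]) (fun _ => [Sum.inl i0, Sum.inr i0]) t) (by
      rintro (t | t) <;> simp)
  refine ⟨Γ', ?_⟩
  rw [hΓ', ← hΓ]
  ext w
  show (((w.map _).flatten).map (Sum.elim g (fun i => (g i)⁻¹))).prod = 1 ↔
    val (evT g) w = 1
  rw [H85.val_flatten (Sum.elim g (fun i => (g i)⁻¹)) (evT g)]
  rintro ((t | t) | t)
  · simp [evT]
  · simp [evT]
  · simp [evT]

/-- the payload structure of a commuting family -/
def mkCP {M J : ℕ} (ℓ : ℕ) (y : Fin M → Fin J → G) (i0 : ι) (hM : 0 < M)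
    (hc : ∀ i j, i ≠ j → ∀ a b, y i a * y j b = y j b * y i a)
    (hinj : ∀ x x' : Fin M → Fin J, (List.ofFn (fun i => y i (x i))).prod =
      (List.ofFn (fun i => y i (x' i))).prod → x = x')
    (w : Fin M → Fin J → List (ι ⊕ ι)) (hw1 : ∀ i a, (w i a).length ≤ ℓ)
    (hw2 : ∀ i a, ((w i a).map (Sum.elim g (fun i => (g i)⁻¹))).prod = y i a)
    (σ : Equiv.Perm (Fin M)) :
    CP ((ι ⊕ ι) ⊕ Unit) G (FreeGroup (Fin J)) (evT g) J M (ℓ + 1) where
  P := fun i a => pad (ℓ + 1) (w i a)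
  N := fun i a => pad (ℓ + 1) (invw (w i a))
  y := fun _ a => FreeGroup.of a
  κ := kap y hc
  t0 := Sum.inl (Sum.inl i0)
  hM := hM
  hl := Nat.succ_pos ℓ
  lenP := fun i a => pad_length _ _ (by have := hw1 i a; omega)
  lenN := fun i a => pad_length _ _ (by
    have := hw1 i a
    unfold invw
    rw [List.length_reverse, List.length_map]
    omega)
  valP := fun i a => by rw [pad_val, kap_single, FreeGroup.lift_apply_of, hw2]
  valN := fun i a => by
    rw [pad_val, invw_prod, kap_single, map_inv, FreeGroup.lift_apply_of, hw2]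
  inj := fun x x' h => by
    rw [kap_box, kap_box] at h
    exact hinj x x' h
  σ := σ

end Letters

/-! ## The theorem -/

/-- The case of `B ^ 2 * q` families. -/
theorem main_square {G : Type} [Group G] {ι : Type} [Finite ι] [Nonempty ι] (g : ι → G)
    (hI : IsIndexed (WP g)) :
    ∃ R k cF B : ℕ, 1 ≤ R ∧ 1 ≤ B ∧ ∀ (q J ℓ : ℕ) (y : Fin (B * B * q) → Fin J → G), 0 < q →
      2 ≤ J →
      (∀ i a, ∃ w : List (ι ⊕ ι), w.length ≤ ℓ ∧
        (w.map (Sum.elim g (fun i => (g i)⁻¹))).prod = y i a) →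
      (∀ i j, i ≠ j → ∀ a b, y i a * y j b = y j b * y i a) →
      (∀ x x' : Fin (B * B * q) → Fin J, (List.ofFn (fun i => y i (x i))).prod =
        (List.ofFn (fun i => y i (x' i))).prod → x = x') →
      J ^ (B * B * q) ≤ (2 * (2 * (B * B * q) * (ℓ + 1) + 1) ^ 4) ^ (4 * R) * J ^ (8 * R) ∨
      J ^ q ≤ (2 * k * cF * (k + 1) ^ (3 * k) * 3 ^ k) *
        (2 * (B * B * q) * (ℓ + 1) + 1) ^ (12 * k + 2) * J ^ (3 * k) := by
  classical
  obtain ⟨Γ, hΓ⟩ := exists_gram' g hI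
  have := Γ.finN
  have := Γ.finF
  obtain ⟨ra, hra⟩ := H4.bound_rhs Γ.R1 Γ.fin1 (fun x => x.2.length)
  obtain ⟨rb, hrb⟩ := H4.bound_rhs Γ.R3 Γ.fin3 (fun x => x.2.2.length)
  obtain ⟨r, hr1, hr3⟩ : ∃ r : ℕ, (∀ A α, (A, α) ∈ Γ.R1 → α.length ≤ r) ∧
      (∀ A f α, (A, f, α) ∈ Γ.R3 → α.length ≤ r) :=
    ⟨max ra rb, fun A α h => le_trans (hra _ h) (le_max_left _ _),
      fun A f α h => le_trans (hrb _ h) (le_max_right _ _)⟩
  obtain ⟨k, hk⟩ : ∃ k, Nat.card Γ.N = k := ⟨_, rfl⟩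
  obtain ⟨R, hR⟩ : ∃ R, R = r + 3 * k + 1 := ⟨_, rfl⟩
  obtain ⟨Dc, hDc⟩ : ∃ Dc, Dc = 2 * (3 * k + 1) := ⟨_, rfl⟩
  refine ⟨R, k, Nat.card Γ.F, 2 * R * Dc + 1, by omega, by omega, ?_⟩
  obtain ⟨B, hB⟩ : ∃ B, B = 2 * R * Dc + 1 := ⟨_, rfl⟩
  rw [← hB]
  intro q J ℓ y hq hJ hw hc hinj
  have hM : 0 < B * B * q := by
    have : 0 < B := by omega
    positivity
  choose w hw1 hw2 using hw
  have i0 : ι := Classical.arbitrary ι
  obtain ⟨S, hS⟩ : ∃ S : CP ((ι ⊕ ι) ⊕ Unit) G (FreeGroup (Fin J)) (evT g) J (B * B * q) (ℓ + 1),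
      S.σ = dswap B q := ⟨mkCP g ℓ y i0 hM hc hinj w hw1 hw2 (dswap B q), rfl⟩
  obtain ⟨n, hn⟩ : ∃ n, n = 2 * (B * B * q) * (ℓ + 1) := ⟨_, rfl⟩
  rw [← hn]
  -- the exponent `b`
  have hex : ∃ b, 2 * (n + 1) ^ 4 ≤ J ^ b :=
    ⟨2 * (n + 1) ^ 4, (Nat.lt_pow_self (by omega)).le⟩
  obtain ⟨b, hb1, hb2⟩ : ∃ b, 2 * (n + 1) ^ 4 ≤ J ^ b ∧ J ^ b ≤ J * (2 * (n + 1) ^ 4) := by
    refine ⟨Nat.find hex, Nat.find_spec hex, ?_⟩
    cases hf : Nat.find hex with
    | zero =>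
      rw [pow_zero]
      have : 0 < J * (2 * (n + 1) ^ 4) := by positivity
      omega
    | succ b =>
      have h1 : ¬ 2 * (n + 1) ^ 4 ≤ J ^ b := Nat.find_min hex (by omega)
      rw [pow_succ, Nat.mul_comm]
      exact Nat.mul_le_mul_left _ (by omega)
  by_cases hcase : 4 * R * (b + 1) ≤ B * B * q
  · right
    have h1 := S.frameC (H75B.bal H18.bhol) H85.sgl H56.mix H4.fchi Γ hΓ k r b q hk hr1 hr3
      (by rw [← hR]; exact hcase) (by omega) (by rw [← hn]; exact hb1) (by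
        intro χ c1 c2 c3
        have hRr : (R : ℝ) = (r : ℝ) + 3 * k + 1 := by rw [hR]; push_cast; ring
        exact geo S hS R Dc (by omega) (by omega) hq χ (by rw [hDc]; exact c1)
          (by rw [hRr]; exact c2) c3)
    rw [← hn] at h1
    obtain ⟨t1, t2⟩ := S.tiny b
    rw [card_Dt Γ n k (S.TW b) hk t1] at h1
    refine h1.trans (arith3 J b k (Nat.card Γ.F) (S.TW b).ncard n (by omega) ?_ ?_)
    · calc J ^ (b + 2) = J ^ 2 * J ^ b := by ring
        _ ≤ J ^ 2 * (J * (2 * (n + 1) ^ 4)) := Nat.mul_le_mul_left _ hb2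
        _ = J ^ 3 * (2 * (n + 1) ^ 4) := by ring
    · rw [hn]; exact t2
  · left
    push Not at hcase
    calc J ^ (B * B * q) ≤ J ^ (4 * R * (b + 1)) := Nat.pow_le_pow_right (by omega) hcase.le
      _ = (J * J ^ b) ^ (4 * R) := by rw [← pow_succ', ← pow_mul]; congr 1; ring
      _ ≤ (J * (J * (2 * (n + 1) ^ 4))) ^ (4 * R) :=
          Nat.pow_le_pow_left (Nat.mul_le_mul_left _ hb2) _
      _ = (2 * (n + 1) ^ 4) ^ (4 * R) * J ^ (8 * R) := by
          rw [show J * (J * (2 * (n + 1) ^ 4)) = (2 * (n + 1) ^ 4) * J ^ 2 by ring, mul_pow,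
            ← pow_mul]
          congr 2
          ring

end Pool.Agent.Idx.C
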