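import Pool.Agent.Helper61_Idx.CUniq

/-!
# Commuting payloads: the number of factors at tiny intervals
-/

set_option autoImplicit false

namespace Pool.Agent.Idx.C

open Pool.Agent.Idx

variable {T G H : Type} [Group G] [Group H] {ev : T → G} {J M l : ℕ}

theorem tiny_len {l b s t : ℕ} (hl : 0 < l) (h : ¬ BigC l b s t) : t < s + (b + 1) * l := by
  by_contra hc
  push Not at hc
  apply h
  refine ⟨(s + l - 1) / l, ?_, ?_⟩
  · have h1 := Nat.div_add_mod (s + l - 1) l
    have h2 := Nat.mod_lt (s + l - 1) hl
    rw [Nat.mul_comm] at h1
    omega
  · have h1 := Nat.div_mul_le_self (s + l - 1) l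
    have h2 : ((s + l - 1) / l + b) * l = (s + l - 1) / l * l + b * l := by ring
    have h3 : (b + 1) * l = b * l + l := by ring
    omega

namespace CP

variable (S : CP T G H ev J M l)

/-- the tiny words -/
def TW (b : ℕ) : Set (List T) :=
  {w : List T | ∃ (x : Fin M → Fin J) (s t : ℕ), s ≤ t ∧
    t ≤ 2 * M * l ∧ ¬ BigC l b s t ∧ w = S.fac (S.asg x) s t}

theorem tiny (b : ℕ) : (S.TW b).Finite ∧
    (S.TW b).ncard ≤ (2 * M * l + 1) ^ 2 * J ^ (b + 2) := by
  classical
  have hl := S.hl
  set f : Fin (2 * M * l + 1) × Fin (2 * M * l + 1) × (Fin (b + 2) → Fin J) → List T :=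
    fun e => S.fac (fun j => e.2.2 ⟨(j - e.1.val / l) % (b + 2), Nat.mod_lt _ (by omega)⟩)
      e.1.val e.2.1.val with hf
  have hsub : S.TW b ⊆ ↑(Finset.univ.image f) := by
    rintro w ⟨x, s, t, h1, h2, h3, rfl⟩
    rw [Finset.coe_image, Finset.coe_univ, Set.image_univ]
    refine ⟨(⟨s, by omega⟩, ⟨t, by omega⟩, fun i => S.asg x (s / l + i.val)), ?_⟩
    rw [hf]
    simp only
    apply S.fac_congr
    intro p p1 p2
    have h4 := tiny_len hl h3
    have h5 : s / l ≤ p / l := Nat.div_le_div_right p1
    have h6 : p / l ≤ s / l + (b + 1) := by
      have : p ≤ s + (b + 1) * l := by omega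
      calc p / l ≤ (s + (b + 1) * l) / l := Nat.div_le_div_right this
        _ = s / l + (b + 1) := Nat.add_mul_div_right _ _ hl
    rw [Nat.mod_eq_of_lt (by omega)]
    congr 1
    omega
  constructor
  · exact (Finset.finite_toSet _).subset hsub
  · calc (S.TW b).ncard ≤ (↑(Finset.univ.image f) : Set (List T)).ncard :=
          Set.ncard_le_ncard hsub (Finset.finite_toSet _)
      _ = (Finset.univ.image f).card := Set.ncard_coe_finset _
      _ ≤ (Finset.univ : Finset (Fin (2 * M * l + 1) × Fin (2 * M * l + 1) ×
          (Fin (b + 2) → Fin J))).card := Finset.card_image_le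
      _ = (2 * M * l + 1) ^ 2 * J ^ (b + 2) := by
        rw [Finset.card_univ]
        simp only [Fintype.card_prod, Fintype.card_fin, Fintype.card_fun]
        ring

end CP

/-! ## The mask is determined by the holes -/

theorem holes_start {T : Type} {Γ : Gram T} (c : List (Item Γ)) :
    ∀ (s : ℕ) (x : ℕ × Γ.N × List T), x ∈ holes s c → s ≤ x.1 := by
  induction c with
  | nil => intro s x hx; simp [holes] at hx
  | cons a c ih =>
    intro s x hx
    rcases a with t | ⟨E0, u0, b0⟩
    · have := ih (s + 1) x (by simpa [holes] using hx)
      omega
    · cases b0 with
      | true =>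
        rcases List.mem_cons.mp (by simpa only [holes] using hx) with he | hx'
        · subst he
          exact le_refl _
        · have := ih (s + u0.length) x hx'
          omega
      | false =>
        have := ih (s + u0.length) x (by simpa only [holes] using hx)
        omega

theorem mask_spec {T : Type} {Γ : Gram T} (c : List (Item Γ)) : ∀ (s i : ℕ),
    ((mask c).getD i false = true ↔ (i < (flat c).length ∧ ∀ h ∈ holes s c,
      ¬ (h.1 ≤ s + i ∧ s + i < h.1 + h.2.2.length))) := by
  induction c with
  | nil => intro s i; simp [mask, flat]
  | cons a c ih =>
    intro s i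
    rcases a with t | ⟨E, u, b⟩
    · have e1 : mask (Sum.inl t :: c : List (Item Γ)) = true :: mask c := by
        simp [mask, imask]
      have e2 : (flat (Sum.inl t :: c : List (Item Γ))).length = (flat c).length + 1 := by
        simp [flat, iword]
      have e3 : holes s (Sum.inl t :: c : List (Item Γ)) = holes (s + 1) c := by simp [holes]
      rw [e1, e2, e3]
      cases i with
      | zero =>
        simp only [List.getD_cons_zero, true_iff]
        refine ⟨by omega, ?_⟩
        intro h hh
        have := holes_start c (s + 1) h hh
        omega
      | succ i =>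
        rw [List.getD_cons_succ, ih (s + 1) i]
        have e4 : s + 1 + i = s + (i + 1) := by omega
        rw [e4, Nat.add_lt_add_iff_right]
    · have e1 : mask (Sum.inr (E, u, b) :: c : List (Item Γ)) =
          List.replicate u.length (!b) ++ mask c := by
        simp [mask, imask]
      have e2 : (flat (Sum.inr (E, u, b) :: c : List (Item Γ))).length =
          u.length + (flat c).length := by
        simp [flat, iword]
      rw [e1, e2]
      by_cases hi : i < u.length
      · rw [List.getD_append _ _ _ _ (by simpa using hi)]
        rw [List.getD_eq_getElem?_getD, List.getElem?_replicate, if_pos hi, Option.getD_some]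
        cases b with
        | true =>
          have e3 : holes s (Sum.inr (E, u, true) :: c : List (Item Γ)) =
            (s, E, u) :: holes (s + u.length) c := by simp [holes]
          rw [e3]
          simp only [Bool.not_true, Bool.false_eq_true, false_iff, not_and, not_forall]
          intro _
          exact ⟨(s, E, u), List.mem_cons_self, Nat.le_add_right s i,
            not_not_intro (Nat.add_lt_add_left hi s)⟩
        | false =>
          have e3 : holes s (Sum.inr (E, u, false) :: c : List (Item Γ)) =
            holes (s + u.length) c := by simp [holes]
          rw [e3]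
          simp only [Bool.not_false, true_iff]
          refine ⟨by omega, ?_⟩
          intro h hh
          have := holes_start c (s + u.length) h hh
          omega
      · have hi' : u.length ≤ i := by omega
        rw [List.getD_append_right _ _ _ _ (by simpa using hi'), List.length_replicate,
          ih (s + u.length) (i - u.length)]
        have e4 : s + u.length + (i - u.length) = s + i := by omega
        rw [e4]
        cases b with
        | true =>
          have e3 : holes s (Sum.inr (E, u, true) :: c : List (Item Γ)) =
            (s, E, u) :: holes (s + u.length) c := by simp [holes]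
          rw [e3]
          constructor
          · rintro ⟨g1, g2⟩
            refine ⟨by omega, ?_⟩
            intro h hh
            rcases List.mem_cons.mp hh with rfl | hh
            · simp only; omega
            · exact g2 h hh
          · rintro ⟨g1, g2⟩
            exact ⟨by omega, fun h hh => g2 h (List.mem_cons_of_mem _ hh)⟩
        | false =>
          have e3 : holes s (Sum.inr (E, u, false) :: c : List (Item Γ)) =
            holes (s + u.length) c := by simp [holes]
          rw [e3]
          constructor
          · rintro ⟨g1, g2⟩
            exact ⟨by omega, g2⟩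
          · rintro ⟨g1, g2⟩
            exact ⟨by omega, g2⟩

/-- the mask in the whole word -/
theorem fmask_spec {T : Type} {Γ : Gram T} (X Z : List T) (c : List (Item Γ)) (p : ℕ) :
    ((fmask X Z c).getD p false = true ↔ (X.length ≤ p ∧ p < X.length + (flat c).length ∧
      ∀ h ∈ holes X.length c, ¬ (h.1 ≤ p ∧ p < h.1 + h.2.2.length))) := by
  have hml : (mask c).length = (flat c).length := by
    induction c with
    | nil => simp [mask, flat]
    | cons a c ih =>
      have e1 : mask (a :: c) = imask a ++ mask c := by simp [mask]
      have e2 : flat (a :: c) = iword a ++ flat c := by simp [flat]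
      rw [e1, e2, List.length_append, List.length_append, ih]
      congr 1
      rcases a with t | ⟨E, u, b⟩
      · simp [imask, iword]
      · simp [imask, iword]
  unfold fmask
  by_cases h1 : p < X.length
  · rw [List.append_assoc, List.getD_append _ _ _ _ (by simpa using h1),
      List.getD_eq_getElem?_getD, List.getElem?_replicate, if_pos h1, Option.getD_some]
    constructor
    · intro h; exact absurd h (by simp)
    · rintro ⟨g1, _⟩; omega
  · push Not at h1
    rw [List.append_assoc, List.getD_append_right _ _ _ _ (by simpa using h1),
      List.length_replicate]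
    by_cases h2 : p < X.length + (flat c).length
    · rw [List.getD_append _ _ _ _ (by rw [hml]; omega), mask_spec c X.length (p - X.length)]
      have e : X.length + (p - X.length) = p := by omega
      rw [e]
      constructor
      · rintro ⟨g1, g2⟩; exact ⟨h1, h2, g2⟩
      · rintro ⟨g1, g2, g3⟩; exact ⟨by omega, g3⟩
    · rw [List.getD_append_right _ _ _ _ (by rw [hml]; omega)]
      constructor
      · intro h
        rw [List.getD_eq_getElem?_getD, List.getElem?_replicate] at h
        split_ifs at h <;> simp at h
      · rintro ⟨_, g2, _⟩
        exact absurd g2 h2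

end Pool.Agent.Idx.C
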