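import Pool.Agent.Helper61_Idx.CWord

/-!
# Commuting payloads: most payloads have no four disjoint big intervals with the same value
-/

set_option autoImplicit false

namespace Pool.Agent.Idx.C

open Pool.Agent.Idx

/-- counting lemma: a set of functions on which the values off `F` determine the function -/
theorem card_det {M J : ℕ} (S : Finset (Fin M → Fin J)) (F : Finset (Fin M))
    (h : ∀ x ∈ S, ∀ x' ∈ S, (∀ i, i ∉ F → x i = x' i) → x = x') :
    S.card * J ^ F.card ≤ J ^ M := by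
  classical
  have h1 : S.card ≤ Fintype.card ({i // i ∉ F} → Fin J) := by
    rw [← Fintype.card_coe]
    apply Fintype.card_le_of_injective (fun (x : S) (i : {i // i ∉ F}) => x.1 i.1)
    intro x x' hx
    apply Subtype.ext
    exact h x.1 x.2 x'.1 x'.2 (fun i hi => congrFun hx ⟨i, hi⟩)
  have h2 : Fintype.card ({i // i ∉ F} → Fin J) = J ^ (M - F.card) := by
    rw [Fintype.card_fun, Fintype.card_fin]
    congr 1
    rw [Fintype.card_subtype_compl, Fintype.card_fin, Fintype.card_coe]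
  have h3 : F.card ≤ M := by
    simpa using Finset.card_le_univ F
  calc S.card * J ^ F.card ≤ J ^ (M - F.card) * J ^ F.card := by
        rw [← h2]; exact Nat.mul_le_mul_right _ h1
    _ = J ^ M := by rw [← pow_add]; congr 1; omega

variable {T G H : Type} [Group G] [Group H] {ev : T → G} {J M l : ℕ}

/-- an interval that contains `b` consecutive full segments -/
def BigC (l b s t : ℕ) : Prop := ∃ j, s ≤ j * l ∧ (j + b) * l ≤ t

theorem BigC_mono (l b : ℕ) : ∀ s t s' t', s' ≤ s → t ≤ t' → BigC l b s t → BigC l b s' t' := by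
  rintro s t s' t' h1 h2 ⟨j, h3, h4⟩
  exact ⟨j, by omega, by omega⟩

/-- two intervals in the same half -/
def Same (M l s t s' t' : ℕ) : Prop := (t ≤ M * l ∧ t' ≤ M * l) ∨ (M * l ≤ s ∧ M * l ≤ s')

namespace CP

variable (S : CP T G H ev J M l)

theorem own_inj (j j' : ℕ) (h : (j < M ∧ j' < M) ∨ (M ≤ j ∧ M ≤ j' ∧ j < 2 * M ∧ j' < 2 * M))
    (he : S.own j = S.own j') : j = j' := by
  rcases h with ⟨h1, h2⟩ | ⟨h1, h2, h3, h4⟩
  · rw [S.own_lt j h1, S.own_lt j' h2] at he
    simpa using he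
  · obtain ⟨i, rfl⟩ := Nat.exists_eq_add_of_le h1
    obtain ⟨i', rfl⟩ := Nat.exists_eq_add_of_le h2
    rw [S.own_add i (by omega), S.own_add i' (by omega)] at he
    have := S.σ.injective he
    have h5 : i = i' := by simpa using this
    rw [h5]

theorem lt_half {p : ℕ} (h : p < M * l) : p / l < M := Nat.div_lt_of_lt_mul (by rw [Nat.mul_comm]; exact h)

theorem ge_half (hl : 0 < l) {p : ℕ} (h : M * l ≤ p) : M ≤ p / l := (Nat.le_div_iff_mul_le hl).mpr h

/-- the product of the payloads in a range of one half determines the payloads there -/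
theorem range_inj (x x' : Fin M → Fin J) (a b : ℕ) (hab : a ≤ b)
    (hh : b ≤ M ∨ (M ≤ a ∧ b ≤ 2 * M))
    (hoff : ∀ i, i ∉ (Finset.Ico a b).image S.own → x i = x' i)
    (hp : S.κ (S.rp (S.asg x) a b) = S.κ (S.rp (S.asg x') a b)) :
    x = x' := by
  classical
  have hoff' : ∀ j, j ∉ Finset.Ico a b →
      ((j < M ∧ b ≤ M) ∨ (M ≤ j ∧ j < 2 * M ∧ M ≤ a ∧ b ≤ 2 * M)) →
      S.asg x j = S.asg x' j := by
    intro j hj hc
    apply hoff
    intro hm
    rw [Finset.mem_image] at hm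
    obtain ⟨j', hj', he⟩ := hm
    have hj2 := Finset.mem_Ico.mp hj'
    have := S.own_inj j' j (by omega) he
    rw [this] at hj'
    exact hj hj'
  apply S.inj
  rcases hh with hh | ⟨hh1, hh2⟩
  · have e : ∀ z : Fin M → Fin J, S.κ (fun i => S.y i (z i)) =
        S.κ (S.rp (S.asg z) 0 a) * S.κ (S.rp (S.asg z) a b) * S.κ (S.rp (S.asg z) b M) := by
      intro z
      rw [← map_mul, ← map_mul, ← S.rp_append _ (Nat.zero_le a) hab,
        ← S.rp_append _ (Nat.zero_le b) hh, S.rp_first, S.asg_first]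
    rw [e x, e x', hp, S.rp_congr (S.asg x) (S.asg x') 0 a
        (fun j _ hj => hoff' j (by rw [Finset.mem_Ico]; omega) (by omega)),
      S.rp_congr (S.asg x) (S.asg x') b M
        (fun j hj _ => hoff' j (by rw [Finset.mem_Ico]; omega) (by omega))]
  · have e : ∀ z : Fin M → Fin J, (S.κ (fun i => S.y i (z i)))⁻¹ =
        S.κ (S.rp (S.asg z) M a) * S.κ (S.rp (S.asg z) a b) *
          S.κ (S.rp (S.asg z) b (2 * M)) := by
      intro z
      rw [← map_mul, ← map_mul, ← S.rp_append _ hh1 hab,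
        ← S.rp_append _ (by omega : M ≤ b) hh2, S.rp_second, S.asg_second, map_inv]
    apply inv_injective
    rw [e x, e x', hp, S.rp_congr (S.asg x) (S.asg x') M a
        (fun j _ hj => hoff' j (by rw [Finset.mem_Ico]; omega) (by omega)),
      S.rp_congr (S.asg x) (S.asg x') b (2 * M)
        (fun j hj _ => hoff' j (by rw [Finset.mem_Ico]; omega) (by omega))]

/-- the key step -/
theorem uniq_one (x x' : Fin M → Fin J) (b s t s' t' j : ℕ) (h1 : s ≤ j * l)
    (h2 : (j + b) * l ≤ t) (h3 : t ≤ s') (h5 : t' ≤ 2 * M * l)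
    (h4 : s' ≤ t') (hS : Same M l s t s' t')
    (hoff : ∀ i, i ∉ (Finset.Ico j (j + b)).image S.own → x i = x' i)
    (he : val ev (S.fac (S.asg x) s t) = val ev (S.fac (S.asg x) s' t'))
    (he' : val ev (S.fac (S.asg x') s t) = val ev (S.fac (S.asg x') s' t')) : x = x' := by
  classical
  have hl := S.hl
  have hjb : j * l ≤ (j + b) * l := Nat.mul_le_mul_right l (by omega)
  -- halves
  have hhalf : j + b ≤ M ∨ (M ≤ j ∧ j + b ≤ 2 * M) := by
    rcases hS with ⟨c1, c2⟩ | ⟨c1, c2⟩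
    · left
      exact Nat.le_of_mul_le_mul_right (by omega : (j + b) * l ≤ M * l) hl
    · right
      constructor
      · exact Nat.le_of_mul_le_mul_right (by omega : M * l ≤ j * l) hl
      · exact Nat.le_of_mul_le_mul_right (by omega : (j + b) * l ≤ 2 * M * l) hl
  have hagree : ∀ p, s ≤ p → p < t' → (p < j * l ∨ (j + b) * l ≤ p) →
      S.asg x (p / l) = S.asg x' (p / l) := by
    intro p p1 p2 p3
    unfold asg
    apply hoff
    intro hm
    rw [Finset.mem_image] at hm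
    obtain ⟨j', hj', hown⟩ := hm
    rw [Finset.mem_Ico] at hj'
    have q1 : ¬ (j ≤ p / l ∧ p / l < j + b) := by
      rintro ⟨q1, q2⟩
      rcases p3 with p3 | p3
      · have := Nat.div_lt_of_lt_mul (by rw [Nat.mul_comm]; exact p3 : p < l * j)
        omega
      · have := (Nat.le_div_iff_mul_le hl).mpr p3
        omega
    have q2 : (j' < M ∧ p / l < M) ∨ (M ≤ j' ∧ M ≤ p / l ∧ j' < 2 * M ∧ p / l < 2 * M) := by
      rcases hS with ⟨c1, c2⟩ | ⟨c1, c2⟩
      · left
        have e1 : p / l < M := lt_half (by omega)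
        have e2 : (j + b) ≤ M := Nat.le_of_mul_le_mul_right (by omega : (j + b) * l ≤ M * l) hl
        omega
      · right
        have e1 : M ≤ p / l := ge_half hl (by omega)
        have e2 : M ≤ j := Nat.le_of_mul_le_mul_right (by omega : M * l ≤ j * l) hl
        have e3 : (j + b) ≤ 2 * M :=
          Nat.le_of_mul_le_mul_right (by omega : (j + b) * l ≤ 2 * M * l) hl
        have e4 : p / l < 2 * M := lt_half (by omega)
        omega
    have := S.own_inj j' (p / l) q2 hown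
    omega
  have ha : S.fac (S.asg x) s' t' = S.fac (S.asg x') s' t' :=
    S.fac_congr _ _ _ _ (fun p p1 p2 => hagree p (by omega) p2 (by omega))
  have hb : S.fac (S.asg x) s (j * l) = S.fac (S.asg x') s (j * l) :=
    S.fac_congr _ _ _ _ (fun p p1 p2 => hagree p p1 (by omega) (Or.inl p2))
  have hc : S.fac (S.asg x) ((j + b) * l) t = S.fac (S.asg x') ((j + b) * l) t :=
    S.fac_congr _ _ _ _ (fun p p1 p2 => hagree p (by omega) (by omega) (Or.inr p1))
  have hsplit : ∀ z : ℕ → Fin J, val ev (S.fac z s t) =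
      val ev (S.fac z s (j * l)) * S.κ (S.rp z j (j + b)) *
        val ev (S.fac z ((j + b) * l) t) := by
    intro z
    rw [S.fac_append z h1 (by omega : j * l ≤ t), S.fac_append z hjb h2, val_append',
      val_append', S.val_fac_segs z j (j + b) (by omega), mul_assoc]
  have hval : val ev (S.fac (S.asg x) s t) = val ev (S.fac (S.asg x') s t) := by
    rw [he, he', ha]
  rw [hsplit, hsplit, hb, hc] at hval
  have hprod := mul_left_cancel (mul_right_cancel hval)
  exact S.range_inj x x' j (j + b) (by omega) hhalf hoff hprod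

/-- four disjoint big intervals with the same value -/
def Four (b : ℕ) (x : Fin M → Fin J) : Prop :=
  ∃ s₁ t₁ s₂ t₂ s₃ t₃ s₄ t₄, s₁ ≤ t₁ ∧ t₁ ≤ s₂ ∧ s₂ ≤ t₂ ∧ t₂ ≤ s₃ ∧ s₃ ≤ t₃ ∧ t₃ ≤ s₄ ∧
    s₄ ≤ t₄ ∧ t₄ ≤ 2 * M * l ∧ BigC l b s₁ t₁ ∧ BigC l b s₂ t₂ ∧
    BigC l b s₃ t₃ ∧ BigC l b s₄ t₄ ∧
    val ev (S.fac (S.asg x) s₁ t₁) = val ev (S.fac (S.asg x) s₂ t₂) ∧
    val ev (S.fac (S.asg x) s₁ t₁) = val ev (S.fac (S.asg x) s₃ t₃) ∧
    val ev (S.fac (S.asg x) s₁ t₁) = val ev (S.fac (S.asg x) s₄ t₄)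

/-- the bad event of two intervals -/
def Ev (b : ℕ) (e : Fin (2 * M * l + 1) × Fin (2 * M * l + 1) × Fin (2 * M * l + 1) ×
    Fin (2 * M * l + 1)) (x : Fin M → Fin J) : Prop :=
  e.2.1.val ≤ e.2.2.1.val ∧ e.2.2.1.val ≤ e.2.2.2.val ∧
  Same M l e.1.val e.2.1.val e.2.2.1.val e.2.2.2.val ∧ BigC l b e.1.val e.2.1.val ∧
  val ev (S.fac (S.asg x) e.1.val e.2.1.val) =
    val ev (S.fac (S.asg x) e.2.2.1.val e.2.2.2.val)

theorem four_ev (b : ℕ) (x : Fin M → Fin J) (h : S.Four b x) : ∃ e, S.Ev b e x := by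
  obtain ⟨s₁, t₁, s₂, t₂, s₃, t₃, s₄, t₄, a1, a2, a3, a4, a5, a6, a7, a8, b1, b2, b3, b4,
    c1, c2, c3⟩ := h
  by_cases hc : t₂ ≤ M * l
  · exact ⟨(⟨s₁, by omega⟩, ⟨t₁, by omega⟩, ⟨s₂, by omega⟩, ⟨t₂, by omega⟩), a2, a3,
      Or.inl ⟨by simp only; omega, hc⟩, b1, c1⟩
  · exact ⟨(⟨s₃, by omega⟩, ⟨t₃, by omega⟩, ⟨s₄, by omega⟩, ⟨t₄, by omega⟩), a6, a7,
      Or.inr ⟨by simp only; omega, by simp only; omega⟩, b3, by simp only; rw [← c2, c3]⟩

theorem card_ev (b : ℕ) (e : Fin (2 * M * l + 1) × Fin (2 * M * l + 1) × Fin (2 * M * l + 1) ×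
    Fin (2 * M * l + 1)) [DecidablePred (S.Ev b e)] :
    (Finset.univ.filter (S.Ev b e)).card * J ^ b ≤ J ^ M := by
  classical
  by_cases hne : ∃ x, S.Ev b e x
  · obtain ⟨x0, c1, c2, c3, ⟨j, c4, c5⟩, c6⟩ := hne
    have hl := S.hl
    have hF : ((Finset.Ico j (j + b)).image S.own).card = b := by
      rw [Finset.card_image_of_injOn]
      · simp
      · intro i hi i' hi' hii
        rw [Finset.coe_Ico, Set.mem_Ico] at hi hi'
        apply S.own_inj i i' _ hii
        have h4 := e.2.2.2.2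
        rcases c3 with ⟨d1, d2⟩ | ⟨d1, d2⟩
        · have e2 : (j + b) ≤ M :=
            Nat.le_of_mul_le_mul_right (by omega : (j + b) * l ≤ M * l) hl
          omega
        · have e2 : M ≤ j := Nat.le_of_mul_le_mul_right (by omega : M * l ≤ j * l) hl
          have e3 : (j + b) ≤ 2 * M :=
            Nat.le_of_mul_le_mul_right (by omega : (j + b) * l ≤ 2 * M * l) hl
          omega
    have := card_det (Finset.univ.filter (S.Ev b e)) ((Finset.Ico j (j + b)).image S.own) (by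
      intro x hx x' hx' hoff
      rw [Finset.mem_filter] at hx hx'
      obtain ⟨_, -, -, -, -, d6⟩ := hx
      obtain ⟨_, -, -, -, -, d6'⟩ := hx'
      have h4 := e.2.2.2.2
      exact S.uniq_one x x' b e.1.val e.2.1.val e.2.2.1.val e.2.2.2.val j c4 c5 c1 (by omega)
        c2 c3 hoff d6 d6')
    rw [hF] at this
    exact this
  · have : Finset.univ.filter (S.Ev b e) = ∅ := by
      rw [Finset.filter_eq_empty_iff]
      intro x _ hx
      exact hne ⟨x, hx⟩
    rw [this]
    simp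

/-- UNIQ for commuting payloads -/
theorem uniq (b : ℕ) (hb : 2 * (2 * M * l + 1) ^ 4 ≤ J ^ b) (S4 : Finset (Fin M → Fin J))
    (hS4 : ∀ x ∈ S4, S.Four b x) : 2 * S4.card ≤ J ^ M := by
  classical
  have h1 : S4 ⊆ Finset.univ.biUnion (fun e => Finset.univ.filter (S.Ev b e)) := by
    intro x hx
    obtain ⟨e, he⟩ := S.four_ev b x (hS4 x hx)
    rw [Finset.mem_biUnion]
    exact ⟨e, Finset.mem_univ _, by rw [Finset.mem_filter]; exact ⟨Finset.mem_univ _, he⟩⟩
  have h2 := (Finset.card_le_card h1).trans Finset.card_biUnion_le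
  have h3 : (∑ e, (Finset.univ.filter (S.Ev b e)).card) * J ^ b ≤
      (2 * M * l + 1) ^ 4 * J ^ M := by
    rw [Finset.sum_mul]
    calc ∑ e, (Finset.univ.filter (S.Ev b e)).card * J ^ b ≤ ∑ _e : Fin (2 * M * l + 1) ×
          Fin (2 * M * l + 1) × Fin (2 * M * l + 1) × Fin (2 * M * l + 1), J ^ M :=
          Finset.sum_le_sum (fun e _ => S.card_ev b e)
      _ = (2 * M * l + 1) ^ 4 * J ^ M := by
        rw [Finset.sum_const, Finset.card_univ]
        simp only [Fintype.card_prod, Fintype.card_fin, smul_eq_mul]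
        ring
  have h4 : S4.card * J ^ b ≤ (2 * M * l + 1) ^ 4 * J ^ M :=
    (Nat.mul_le_mul_right _ h2).trans h3
  have h5 : 0 < (2 * M * l + 1) ^ 4 := by positivity
  have h6 : (2 * S4.card) * (2 * M * l + 1) ^ 4 ≤ J ^ M * (2 * M * l + 1) ^ 4 := by
    calc (2 * S4.card) * (2 * M * l + 1) ^ 4 = S4.card * (2 * (2 * M * l + 1) ^ 4) := by ring
      _ ≤ S4.card * J ^ b := Nat.mul_le_mul_left _ hb
      _ ≤ _ := by rw [mul_comm (J ^ M)]; exact h4
  exact Nat.le_of_mul_le_mul_right h6 h5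

end CP

end Pool.Agent.Idx.C
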