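import Pool.Agent.Helper85_Idx.Stmts
import Pool.Agent.Helper85_Idx.Basic

/-!
# Words with commuting payloads

`M` payloads, each of them one of `J` words of length `l`; the first half of the word contains all
payloads in the natural order, the second half the inverses in the order of a permutation. The
values of different payloads commute.
-/

set_option autoImplicit false

namespace Pool.Agent.Idx.C

open Pool.Agent.Idx

/-- Commuting payloads. The homomorphism `κ` is defined on the power `H ^ M`; the value of the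
payload `i` lies in the image of the factor `i`. -/
structure CP (T G H : Type) [Group G] [Group H] (ev : T → G)
    (J M l : ℕ) where
  P : Fin M → Fin J → List T
  N : Fin M → Fin J → List T
  y : Fin M → Fin J → H
  κ : (Fin M → H) →* G
  t0 : T
  hM : 0 < M
  hl : 0 < l
  lenP : ∀ i a, (P i a).length = l
  lenN : ∀ i a, (N i a).length = l
  valP : ∀ i a, val ev (P i a) = κ (Pi.mulSingle i (y i a))
  valN : ∀ i a, val ev (N i a) = κ (Pi.mulSingle i (y i a)⁻¹)
  inj : ∀ x x' : Fin M → Fin J, κ (fun i => y i (x i)) = κ (fun i => y i (x' i)) → x = x'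
  σ : Equiv.Perm (Fin M)

variable {T G H : Type} [Group G] [Group H] {ev : T → G} {J M l : ℕ}

namespace CP

variable (S : CP T G H ev J M l)

/-- the owner of a segment -/
def own (j : ℕ) : Fin M :=
  if h : j < M then ⟨j, h⟩ else S.σ ⟨(j - M) % M, Nat.mod_lt _ S.hM⟩

/-- the word of a segment -/
def segw (j : ℕ) (z : Fin J) : List T := if j < M then S.P (S.own j) z else S.N (S.own j) z

/-- the value of a segment -/
def sy (j : ℕ) (z : Fin J) : Fin M → H :=
  if j < M then Pi.mulSingle (S.own j) (S.y (S.own j) z)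
  else Pi.mulSingle (S.own j) (S.y (S.own j) z)⁻¹

/-- the product of the segments `a, …, b - 1` -/
def rp (z : ℕ → Fin J) (a b : ℕ) : Fin M → H :=
  ((List.range' a (b - a)).map (fun j => S.sy j (z j))).prod

/-- the letter at a position -/
def letter (z : ℕ → Fin J) (p : ℕ) : T := (S.segw (p / l) (z (p / l))).getD (p % l) S.t0

/-- the factor at `[s, t)` -/
def fac (z : ℕ → Fin J) (s t : ℕ) : List T := (List.range' s (t - s)).map (S.letter z)

/-- the assignment of the segments that belongs to a payload -/
def asg (x : Fin M → Fin J) (j : ℕ) : Fin J := x (S.own j)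

theorem segw_length (j : ℕ) (z : Fin J) : (S.segw j z).length = l := by
  unfold segw; split_ifs
  · exact S.lenP _ _
  · exact S.lenN _ _

theorem val_segw (j : ℕ) (z : Fin J) : val ev (S.segw j z) = S.κ (S.sy j z) := by
  unfold segw sy; split_ifs
  · exact S.valP _ _
  · exact S.valN _ _

theorem fac_length (z : ℕ → Fin J) (s t : ℕ) : (S.fac z s t).length = t - s := by
  simp [fac]

theorem range'_split {s t u : ℕ} (h1 : s ≤ t) (h2 : t ≤ u) :
    List.range' s (u - s) = List.range' s (t - s) ++ List.range' t (u - t) := by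
  have e : u - s = (t - s) + (u - t) := by omega
  rw [e, ← List.range'_append_1]
  congr 2
  omega

theorem fac_append (z : ℕ → Fin J) {s t u : ℕ} (h1 : s ≤ t) (h2 : t ≤ u) :
    S.fac z s u = S.fac z s t ++ S.fac z t u := by
  unfold fac
  rw [← List.map_append, range'_split h1 h2]

theorem rp_append (z : ℕ → Fin J) {s t u : ℕ} (h1 : s ≤ t) (h2 : t ≤ u) :
    S.rp z s u = S.rp z s t * S.rp z t u := by
  unfold rp
  rw [← List.prod_append, ← List.map_append, range'_split h1 h2]

theorem rp_self (z : ℕ → Fin J) (s : ℕ) : S.rp z s s = 1 := by simp [rp]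

theorem rp_one (z : ℕ → Fin J) (s : ℕ) : S.rp z s (s + 1) = S.sy s (z s) := by
  simp [rp]

theorem fac_seg (z : ℕ → Fin J) (j : ℕ) : S.fac z (j * l) ((j + 1) * l) = S.segw j (z j) := by
  apply List.ext_getElem
  · rw [S.fac_length, S.segw_length]
    have : (j + 1) * l = j * l + l := by ring
    omega
  · intro i h1 h2
    rw [S.segw_length] at h2
    have hd : (j * l + i) / l = j := by
      rw [Nat.add_comm, Nat.add_mul_div_right _ _ S.hl, Nat.div_eq_of_lt h2, Nat.zero_add]
    have hm : (j * l + i) % l = i := by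
      rw [Nat.add_comm, Nat.add_mul_mod_self_right, Nat.mod_eq_of_lt h2]
    simp only [fac, List.getElem_map, List.getElem_range', letter]
    rw [Nat.one_mul, hd, hm, List.getD_eq_getElem?_getD, List.getElem?_eq_getElem
      (by rw [S.segw_length]; exact h2), Option.getD_some]

theorem val_append' (u v : List T) : val ev (u ++ v) = val ev u * val ev v := by
  unfold val
  rw [List.map_append, List.prod_append]

theorem val_fac_segs (z : ℕ → Fin J) (a b : ℕ) (h : a ≤ b) :
    val ev (S.fac z (a * l) (b * l)) = S.κ (S.rp z a b) := by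
  induction b, h using Nat.le_induction with
  | base => rw [S.rp_self, map_one]; simp [fac, val]
  | succ b hb ih =>
    rw [S.fac_append z (Nat.mul_le_mul_right l hb) (Nat.mul_le_mul_right l (Nat.le_succ b)),
      val_append', ih, S.fac_seg, S.val_segw, S.rp_append z hb (Nat.le_succ b), map_mul,
      S.rp_one]

theorem fac_congr (z z' : ℕ → Fin J) (s t : ℕ)
    (h : ∀ p, s ≤ p → p < t → z (p / l) = z' (p / l)) : S.fac z s t = S.fac z' s t := by
  unfold fac
  apply List.map_congr_left
  intro p hp
  rw [List.mem_range'_1] at hp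
  unfold letter
  rw [h p hp.1 (by omega)]

theorem rp_congr (z z' : ℕ → Fin J) (s t : ℕ)
    (h : ∀ p, s ≤ p → p < t → z p = z' p) : S.rp z s t = S.rp z' s t := by
  unfold rp
  congr 1
  apply List.map_congr_left
  intro p hp
  rw [List.mem_range'_1] at hp
  rw [h p hp.1 (by omega)]

/-- the whole word -/
def W (x : Fin M → Fin J) : List T := S.fac (S.asg x) 0 (2 * M * l)

theorem W_length (x : Fin M → Fin J) : (S.W x).length = 2 * M * l := by
  unfold W; rw [S.fac_length, Nat.sub_zero]

theorem sl_W (x : Fin M → Fin J) (s t : ℕ) (h : t ≤ 2 * M * l) :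
    sl (S.W x) s t = S.fac (S.asg x) s t := by
  unfold sl W fac
  rw [← List.map_drop, ← List.map_take]
  congr 1
  apply List.ext_getElem
  · simp; omega
  · intro i h1 h2
    simp

theorem own_lt (j : ℕ) (h : j < M) : S.own j = ⟨j, h⟩ := by
  unfold own; rw [dif_pos h]

theorem own_add (j : ℕ) (h : j < M) : S.own (M + j) = S.σ ⟨j, h⟩ := by
  unfold own
  rw [dif_neg (by omega)]
  congr 2
  rw [Nat.add_sub_cancel_left, Nat.mod_eq_of_lt h]

theorem sy_lt (n : ℕ) (h : n < M) (a : Fin J) :
    S.sy n a = Pi.mulSingle ⟨n, h⟩ (S.y ⟨n, h⟩ a) := by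
  unfold sy
  rw [if_pos h, S.own_lt n h]

theorem sy_add (n : ℕ) (h : n < M) (a : Fin J) :
    S.sy (M + n) a = Pi.mulSingle (S.σ ⟨n, h⟩) (S.y (S.σ ⟨n, h⟩) a)⁻¹ := by
  unfold sy
  rw [if_neg (by omega), S.own_add n h]

theorem rp_first_aux (z : ℕ → Fin J) (n : ℕ) (hn : n ≤ M) (i : Fin M) :
    S.rp z 0 n i = if i.val < n then S.y i (z i.val) else 1 := by
  induction n with
  | zero => rw [S.rp_self]; simp
  | succ n ih =>
    rw [S.rp_append z (Nat.zero_le n) (Nat.le_succ n), S.rp_one, Pi.mul_apply, ih (by omega),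
      S.sy_lt n (by omega)]
    by_cases h : i.val = n
    · subst h
      rw [Fin.eta, Pi.mulSingle_eq_same, if_neg (lt_irrefl _), if_pos (Nat.lt_succ_self _),
        one_mul]
    · have hi : i ≠ ⟨n, by omega⟩ := fun h' => h (congrArg Fin.val h')
      rw [Pi.mulSingle_eq_of_ne hi, mul_one]
      by_cases h2 : i.val < n
      · rw [if_pos h2, if_pos (by omega)]
      · rw [if_neg h2, if_neg (by omega)]

/-- the product over the first half -/
theorem rp_first (z : ℕ → Fin J) : S.rp z 0 M = fun i => S.y i (z i.val) := by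
  funext i
  rw [S.rp_first_aux z M (le_refl _), if_pos i.2]

theorem rp_second_aux (z : ℕ → Fin J) (n : ℕ) (hn : n ≤ M) (i : Fin M) :
    S.rp z M (M + n) i =
      if (S.σ.symm i).val < n then (S.y i (z (M + (S.σ.symm i).val)))⁻¹ else 1 := by
  induction n with
  | zero => rw [Nat.add_zero, S.rp_self]; simp
  | succ n ih =>
    rw [S.rp_append z (Nat.le_add_right M n) (by omega : M + n ≤ M + (n + 1)),
      ← Nat.add_assoc, S.rp_one, Pi.mul_apply, ih (by omega), S.sy_add n (by omega)]
    by_cases h : (S.σ.symm i).val = n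
    · have hi : S.σ.symm i = ⟨n, by omega⟩ := Fin.ext h
      have hi2 : S.σ ⟨n, by omega⟩ = i := by rw [← hi, Equiv.apply_symm_apply]
      rw [hi2, Pi.mulSingle_eq_same, h, if_neg (lt_irrefl _), if_pos (Nat.lt_succ_self _),
        one_mul]
    · have hi : i ≠ S.σ ⟨n, by omega⟩ := by
        intro h'
        apply h
        rw [h', Equiv.symm_apply_apply]
      rw [Pi.mulSingle_eq_of_ne hi, mul_one]
      by_cases h2 : (S.σ.symm i).val < n
      · rw [if_pos h2, if_pos (by omega)]
      · rw [if_neg h2, if_neg (by omega)]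

/-- the product over the second half -/
theorem rp_second (z : ℕ → Fin J) :
    S.rp z M (2 * M) = (fun i => S.y i (z (M + (S.σ.symm i).val)))⁻¹ := by
  funext i
  rw [Nat.two_mul, S.rp_second_aux z M (le_refl _), if_pos (S.σ.symm i).2, Pi.inv_apply]

theorem asg_first (x : Fin M → Fin J) :
    (fun i : Fin M => S.y i (S.asg x i.val)) = fun i => S.y i (x i) := by
  funext i
  unfold asg
  rw [S.own_lt i.val i.2]

theorem asg_second (x : Fin M → Fin J) :
    (fun i : Fin M => S.y i (S.asg x (M + (S.σ.symm i).val))) = fun i => S.y i (x i) := by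
  funext i
  unfold asg
  rw [S.own_add _ (S.σ.symm i).2, Fin.eta, Equiv.apply_symm_apply]

/-- the value of a mixed word -/
theorem val_mixed (z : ℕ → Fin J) : val ev (S.fac z 0 (2 * M * l)) =
    S.κ (fun i => S.y i (z i.val)) * (S.κ (fun i => S.y i (z (M + (S.σ.symm i).val))))⁻¹ := by
  have h := S.val_fac_segs z 0 (2 * M) (Nat.zero_le _)
  rw [Nat.zero_mul] at h
  rw [h, S.rp_append z (Nat.zero_le M) (by omega : M ≤ 2 * M), map_mul, S.rp_first,
    S.rp_second, map_inv]

theorem val_W (x : Fin M → Fin J) : val ev (S.W x) = 1 := by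
  unfold W
  rw [S.val_mixed, S.asg_first, S.asg_second, mul_inv_cancel]

/-- a mixed word of value one is balanced -/
theorem mixed_one (z : ℕ → Fin J) (h : val ev (S.fac z 0 (2 * M * l)) = 1) (i : Fin M) :
    z i.val = z (M + (S.σ.symm i).val) := by
  rw [S.val_mixed, mul_inv_eq_one] at h
  exact congrFun (S.inj (fun i => z i.val) (fun i => z (M + (S.σ.symm i).val)) h) i

end CP

end Pool.Agent.Idx.C
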